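import Mathlib

set_option autoImplicit false

namespace Pool.Agent.V1184.RF

open Topology Filter Pointwise

/-- The dual group of a commutative topological group `G` (written multiplicatively): the
continuous homomorphisms `G → Circle`, with the compact-open topology (Mathlib's topology on
`G →ₜ* Circle`). -/
abbrev Du (G : Type) [CommGroup G] [TopologicalSpace G] : Type := G →ₜ* Circle

/-- The evaluation map `G → Ĝ^`, `g ↦ (χ ↦ χ g)`. -/
noncomputable def ev (G : Type) [CommGroup G] [TopologicalSpace G] : G →* Du (Du G) where
  toFun g :=
    { toFun := fun χ => χ g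
      map_one' := rfl
      map_mul' := fun _ _ => rfl
      continuous_toFun := continuous_eval_const g }
  map_one' := by
    ext χ
    exact congrArg _ (map_one χ)
  map_mul' := fun a b => by
    ext χ
    exact congrArg _ (map_mul χ a b)

/-- Pontryagin reflexivity: the evaluation map is an isomorphism of topological groups
(it is always a homomorphism; here it is required to be a homeomorphism). -/
def Reflexive (G : Type) [CommGroup G] [TopologicalSpace G] : Prop := IsHomeomorph (ev G)

variable (I X : Type) [CommGroup X] [UniformSpace X] [IsUniformGroup X]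

/-- `𝔉^I(X)`: all families, with the uniform topology (`I →ᵤ X`; a base at the identity is
given by the sets `U^I`). -/
abbrev Fam : Type := UniformFun I X

/-- `c₀^I(X)`: the families converging to the identity along the cofinite filter. -/
def c0 : Subgroup (Fam I X) where
  carrier := {x | Tendsto (UniformFun.toFun x) cofinite (𝓝 (1 : X))}
  one_mem' := by
    change Tendsto (fun _ : I => (1 : X)) cofinite (𝓝 1)
    exact tendsto_const_nhds
  mul_mem' := by
    intro a b ha hb
    have := Tendsto.mul ha hb
    rwa [one_mul] at this
  inv_mem' := by
    intro a ha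
    have := Tendsto.inv ha
    rwa [inv_one] at this

/-- `ℓ_∞^I(X)`: the families whose set of values is precompact (totally bounded). -/
def linf : Subgroup (Fam I X) where
  carrier := {x | TotallyBounded (Set.range (UniformFun.toFun x))}
  one_mem' := by
    change TotallyBounded (Set.range (fun _ : I => (1 : X)))
    exact (Set.finite_range_const).totallyBounded
  mul_mem' := by
    intro a b ha hb
    change TotallyBounded (Set.range (UniformFun.toFun a)) at ha
    change TotallyBounded (Set.range (UniformFun.toFun b)) at hb
    change TotallyBounded (Set.range (UniformFun.toFun (a * b)))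
    rw [totallyBounded_iff_subset_finite_iUnion_nhds_one] at ha hb ⊢
    intro U hU
    obtain ⟨V, hV, hVU⟩ := exists_nhds_one_split hU
    obtain ⟨s, hs, hs'⟩ := ha V hV
    obtain ⟨t, ht, ht'⟩ := hb V hV
    refine ⟨s * t, hs.mul ht, ?_⟩
    rintro _ ⟨i, rfl⟩
    have h1 := hs' ⟨i, rfl⟩
    have h2 := ht' ⟨i, rfl⟩
    simp only [Set.mem_iUnion] at h1 h2 ⊢
    obtain ⟨y, hy, y', hy', e⟩ := h1
    obtain ⟨z, hz, z', hz', e2⟩ := h2
    refine ⟨y * z, Set.mul_mem_mul hy hz, y' * z', hVU y' hy' z' hz', ?_⟩
    change (y * z) * (y' * z') = UniformFun.toFun a i * UniformFun.toFun b i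
    rw [← e, ← e2]
    change y * z * (y' * z') = (y * y') * (z * z')
    rw [mul_mul_mul_comm]
  inv_mem' := by
    intro a ha
    change TotallyBounded (Set.range (UniformFun.toFun a)) at ha
    change TotallyBounded (Set.range (UniformFun.toFun a⁻¹))
    have h := ha.inv
    rw [Set.inv_range] at h
    exact h

end Pool.Agent.V1184.RF
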