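import Mathlib
import Pool.Agent.Helper69.CC
import Pool.Agent.TH264.Bridge.PW
import Pool.Agent.V1184.RF.Defs

set_option autoImplicit false
set_option linter.unusedSectionVars false
set_option linter.style.haveILetI false

namespace Pool.Agent.V1184.RF

open Topology Filter Set

/-! ### the circle -/

noncomputable def dl (z : Circle) : ℝ := dist z 1

theorem dl_eq (z : Circle) : dl z = ‖(z : ℂ) - 1‖ := by
  change dist (z : ℂ) ((1 : Circle) : ℂ) = _
  rw [dist_eq_norm, Circle.coe_one]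

theorem dl_nonneg (z : Circle) : 0 ≤ dl z := dist_nonneg

theorem dl_one : dl 1 = 0 := dist_self _

theorem dl_mul (z w : Circle) : dl (z * w) ≤ dl z + dl w := by
  rw [dl_eq, dl_eq, dl_eq, Circle.coe_mul]
  have : (z : ℂ) * w - 1 = (z : ℂ) * ((w : ℂ) - 1) + ((z : ℂ) - 1) := by ring
  rw [this]
  refine (norm_add_le _ _).trans ?_
  rw [norm_mul, Circle.norm_coe, one_mul]
  linarith

theorem dl_inv (z : Circle) : dl z⁻¹ = dl z := by
  rw [dl_eq, dl_eq, Circle.coe_inv]
  have h : (z : ℂ)⁻¹ - 1 = -((z : ℂ)⁻¹ * ((z : ℂ) - 1)) := by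
    have : (z : ℂ) ≠ 0 := Circle.coe_ne_zero z
    field_simp
    ring
  rw [h, norm_neg, norm_mul, norm_inv, Circle.norm_coe, inv_one, one_mul]

theorem dl_div (z w : Circle) : dl (z / w) ≤ dl z + dl w := by
  rw [div_eq_mul_inv]
  exact (dl_mul _ _).trans (by rw [dl_inv])

theorem dl_continuous : Continuous dl := by
  unfold dl
  fun_prop

theorem eq_one_of_dl {z : Circle} (h : dl z = 0) : z = 1 := dist_eq_zero.1 h

theorem eq_one_of_forall {z : Circle} (h : ∀ ε > 0, dl z < ε) : z = 1 := by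
  apply eq_one_of_dl
  by_contra hne
  have := h (dl z) (lt_of_le_of_ne (dl_nonneg z) (Ne.symm hne))
  exact lt_irrefl _ this

theorem tendsto_iff {α : Type} {l : Filter α} {f : α → Circle} :
    Tendsto f l (𝓝 1) ↔ ∀ ε > 0, ∀ᶠ a in l, dl (f a) < ε := Metric.tendsto_nhds

theorem mem_nhds_one {U : Set Circle} : U ∈ 𝓝 (1 : Circle) ↔ ∃ ε > 0, {z | dl z < ε} ⊆ U :=
  Metric.mem_nhds_iff

theorem no_small {z : Circle} (h : ∀ n : ℕ, dl (z ^ n) < 1) : z = 1 := by
  apply Circle.eq_one_of_forall_pow_mem_centeredArc_pi_div_two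
  intro n hn
  rw [Circle.mem_centeredArc (by linarith [Real.pi_pos])]
  rw [Complex.abs_arg_lt_pi_div_two_iff]
  left
  have h1 := h n
  rw [dl_eq] at h1
  have h2 : |((z ^ n : Circle) : ℂ).re - 1| ≤ ‖((z ^ n : Circle) : ℂ) - 1‖ := by
    have := Complex.abs_re_le_norm (((z ^ n : Circle) : ℂ) - 1)
    simpa using this
  have h3 := (abs_le.1 (h2.trans h1.le)).1
  have h4 := (abs_lt.1 (lt_of_le_of_lt h2 h1)).1
  linarith

/-- a homomorphism with small values is trivial -/
theorem hom_trivial {G : Type} [Group G] (f : G →* Circle) (S : Subgroup G)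
    (h : ∀ x ∈ S, dl (f x) < 1) (x : G) (hx : x ∈ S) : f x = 1 := by
  apply no_small
  intro n
  rw [← map_pow]
  exact h _ (S.pow_mem hx n)

/-! ### the compact-open topology on the dual -/

variable {G : Type} [CommGroup G] [TopologicalSpace G]

theorem mem_du_of {C : Set G} (hC : IsCompact C) {ε : ℝ} (hε : 0 < ε) :
    {χ : Du G | ∀ x ∈ C, dl (χ x) < ε} ∈ 𝓝 (1 : Du G) := by
  have h3 : IsOpen {χ : Du G | Set.MapsTo χ C (Metric.ball (1 : Circle) ε)} :=
    isOpen_induced (ContinuousMap.isOpen_setOfPred_mapsTo hC Metric.isOpen_ball)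
  refine h3.mem_nhds ?_
  intro x hx
  change dist (1 : Circle) 1 < ε
  rw [dist_self]
  exact hε

theorem du_nhds {U : Set (Du G)} (hU : U ∈ 𝓝 (1 : Du G)) :
    ∃ C : Set G, IsCompact C ∧ ∃ ε > 0, {χ : Du G | ∀ x ∈ C, dl (χ x) < ε} ⊆ U := by
  rw [(ContinuousMonoidHom.isInducing_toContinuousMap G Circle).nhds_eq_comap] at hU
  obtain ⟨V, hV, hVU⟩ := hU
  rw [UniformSpace.mem_nhds_iff] at hV
  obtain ⟨W, hW, hWV⟩ := hV
  rw [ContinuousMap.mem_compactConvergence_entourage_iff] at hW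
  obtain ⟨C, E, hC, hE, hCE⟩ := hW
  obtain ⟨ε, hε, hεE⟩ := Metric.mem_uniformity_dist.1 hE
  refine ⟨C, hC, ε, hε, ?_⟩
  intro χ hχ
  apply hVU
  apply hWV
  apply hCE
  intro x hx
  apply hεE
  have := hχ x hx
  unfold dl at this
  rw [dist_comm] at this
  exact this

theorem du_tendsto {α : Type} {l : Filter α} {f : α → Du G} :
    Tendsto f l (𝓝 1) ↔ ∀ C : Set G, IsCompact C → ∀ ε > 0, ∀ᶠ a in l, ∀ x ∈ C, dl (f a x) < ε := by
  constructor
  · intro h C hC ε hε
    exact h (mem_du_of hC hε)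
  · intro h U hU
    obtain ⟨C, hC, ε, hε, hs⟩ := du_nhds hU
    exact Filter.mem_of_superset (h C hC ε hε) (fun a ha => hs ha)

variable [IsTopologicalGroup G]

/-- polars of neighbourhoods are compact -/
theorem isCompact_polar (W : ℕ → Set G) (hW : ∀ n, W n ∈ 𝓝 (1 : G)) :
    IsCompact {ψ : Du G | ∀ n : ℕ, ∀ x ∈ W n, dl (ψ x) ≤ 1 / ((n : ℝ) + 1)} := by
  let S1 : Set (G →* Circle) := {f | ∀ n : ℕ, ∀ x ∈ W n, dl (f x) ≤ 1 / ((n : ℝ) + 1)}
  let S2 : Set (Du G) := {f | ∀ n : ℕ, ∀ x ∈ W n, dl (f x) ≤ 1 / ((n : ℝ) + 1)}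
  let S3 : Set C(G, Circle) := (fun f : Du G => (f : C(G, Circle))) '' S2
  let S4 : Set (G → Circle) := (fun f : C(G, Circle) => (f : G → Circle)) '' S3
  have h0 : EquicontinuousAt (fun f : S1 ↦ (f.1 : G → Circle)) 1 := by
    intro U hU
    obtain ⟨ε, hε, hεU⟩ := Metric.mem_uniformity_dist.1 hU
    obtain ⟨n, hn⟩ := exists_nat_one_div_lt hε
    filter_upwards [hW n] with x hx f
    apply hεU
    rw [map_one, dist_comm]
    exact lt_of_le_of_lt (f.2 n x hx) hn
  have h := equicontinuous_of_equicontinuousAt_one _ h0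
  have hS4 : S4 = (fun f : G →* Circle => (f : G → Circle)) '' S1 := by
    ext
    constructor
    · rintro ⟨-, ⟨f, hf, rfl⟩, rfl⟩
      exact ⟨f, hf, rfl⟩
    · rintro ⟨f, hf, rfl⟩
      exact ⟨⟨f, h.continuous ⟨f, hf⟩⟩, ⟨⟨f, h.continuous ⟨f, hf⟩⟩, hf, rfl⟩, rfl⟩
  have h' : Equicontinuous ((↑) : S3 → G → Circle) := by
    let u : S3 → S1 := fun f => ⟨(f.2.choose : Du G).toMonoidHom, f.2.choose_spec.1⟩
    have e : ((↑) : S3 → G → Circle) = (fun f : S1 ↦ (f.1 : G → Circle)) ∘ u := by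
      funext f
      exact congrArg (fun g : C(G, Circle) => (g : G → Circle)) f.2.choose_spec.2.symm
    rw [e]
    exact h.comp u
  replace hS4 : S4 = (⋂ n : ℕ, ⋂ x ∈ W n, {f : G → Circle | dl (f x) ≤ 1 / ((n : ℝ) + 1)}) ∩
      Set.range ((↑) : (G →* Circle) → (G → Circle)) := by
    rw [hS4]
    ext f
    simp only [Set.mem_image, Set.mem_inter_iff, Set.mem_iInter, Set.mem_range]
    constructor
    · rintro ⟨g, hg, rfl⟩
      exact ⟨fun n x hx => hg n x hx, g, rfl⟩
    · rintro ⟨hf, g, rfl⟩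
      exact ⟨g, hf, rfl⟩
  have hcl : IsClosed S4 := by
    rw [hS4]
    refine IsClosed.inter ?_ (MonoidHom.isClosed_range_coe G Circle)
    refine isClosed_iInter fun n => isClosed_iInter fun x => isClosed_iInter fun _ => ?_
    exact isClosed_le (dl_continuous.comp (continuous_apply x)) continuous_const
  exact (ContinuousMonoidHom.isInducing_toContinuousMap G Circle).isCompact_iff.mpr
      (ArzelaAscoli.isCompact_of_equicontinuous S3 hcl.isCompact h')

/-- compact subsets of the dual of a locally compact group are equicontinuous -/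
theorem equicont_of_compact [LocallyCompactSpace G] {Q : Set (Du G)} (hQ : IsCompact Q)
    {ε : ℝ} (hε : 0 < ε) : ∀ᶠ x in 𝓝 (1 : G), ∀ χ ∈ Q, dl (χ x) < ε := by
  apply hQ.eventually_forall_of_forall_eventually
  intro χ _
  have hc : Continuous (fun p : G × Du G => dl (p.2 p.1)) := by
    apply dl_continuous.comp
    have : Continuous (fun p : Du G × G => p.1 p.2) := continuous_eval
    exact this.comp continuous_swap
  have := hc.tendsto (1, χ)
  have h0 : dl (((1, χ) : G × Du G).2 ((1, χ) : G × Du G).1) < ε := by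
    change dl (χ 1) < ε
    rw [map_one, dl_one]; exact hε
  exact this.eventually (gt_mem_nhds h0)

end Pool.Agent.V1184.RF
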