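import Mathlib
import Pool.Agent.V1184.RF.Base

set_option autoImplicit false
set_option linter.unusedSectionVars false
set_option linter.style.haveILetI false

namespace Pool.Agent.V1184.RF

open Topology Filter Set

/-- extension of homomorphisms into divisible groups -/
theorem ext_hom {G M : Type} [CommGroup G] [CommGroup M] (S : Subgroup G)
    (hdiv : ∀ n : ℕ, n ≠ 0 → ∀ m : M, ∃ m' : M, m' ^ n = m) (f : S →* M) :
    ∃ F : G →* M, ∀ s : S, F s = f s := by
  have hd : ∀ (n : ℤ), n ≠ 0 → ∀ m : Additive M, ∃ m' : Additive M, n • m' = m := by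
    intro n hn m
    obtain ⟨m', hm'⟩ := hdiv n.natAbs (Int.natAbs_ne_zero.2 hn) m.toMul
    rcases Int.natAbs_eq n with h | h
    · refine ⟨Additive.ofMul m', ?_⟩
      rw [h, natCast_zsmul]
      exact congrArg Additive.ofMul hm'
    · refine ⟨-Additive.ofMul m', ?_⟩
      rw [h, neg_smul, smul_neg, neg_neg, natCast_zsmul]
      exact congrArg Additive.ofMul hm'
  choose! r hr using hd
  letI : DivisibleBy (Additive M) ℤ :=
    { div := fun m n => if n = 0 then 0 else r n m
      div_zero := fun m => by simp
      div_cancel := fun {n} m hn => by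
        simp only [hn, if_false]
        exact hr n hn m }
  obtain ⟨h, hh⟩ := (Module.Baer.of_divisible (Additive M)).extension_property_addMonoidHom
    (MonoidHom.toAdditive S.subtype) (by
      intro a b hab
      exact Subtype.ext hab) (MonoidHom.toAdditive f)
  refine ⟨MonoidHom.toAdditive.symm h, fun s => ?_⟩
  have := DFunLike.congr_fun hh (Additive.ofMul s)
  exact this

/-- a root function on the circle, continuous at `1` -/
noncomputable def rt (n : ℕ) (z : Circle) : Circle := Circle.exp (Complex.arg z / n)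

theorem rt_pow (n : ℕ) (hn : n ≠ 0) (z : Circle) : rt n z ^ n = z := by
  unfold rt
  have h : ∀ (k : ℕ) (x : ℝ), Circle.exp x ^ k = Circle.exp (k * x) := by
    intro k x
    induction k with
    | zero => simp
    | succ k ih =>
      rw [pow_succ, ih, ← Circle.exp_add]
      congr 1
      push_cast
      ring
  rw [h]
  have hn' : (n : ℝ) ≠ 0 := Nat.cast_ne_zero.2 hn
  have e : (n : ℝ) * (Complex.arg z / n) = Complex.arg z := by field_simp
  rw [e, Circle.exp_arg]

theorem rt_tendsto (n : ℕ) : Tendsto (rt n) (𝓝 1) (𝓝 1) := by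
  have h1 : ContinuousAt (fun z : Circle => Complex.arg z) 1 := by
    refine ContinuousAt.comp (g := Complex.arg) ?_ (Continuous.continuousAt continuous_subtype_val)
    exact Complex.continuousAt_arg (by simp)
  have h2 : ContinuousAt (rt n) 1 := by
    unfold rt
    refine ContinuousAt.comp (g := Circle.exp) (Circle.exp.continuous.continuousAt) ?_
    exact h1.div_const _
  have h3 : rt n 1 = 1 := by
    unfold rt
    simp
  have h4 : Tendsto (rt n) (𝓝 1) (𝓝 (rt n 1)) := h2
  rwa [h3] at h4

theorem circle_div (n : ℕ) (hn : n ≠ 0) (z : Circle) : ∃ w : Circle, w ^ n = z :=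
  ⟨rt n z, rt_pow n hn z⟩

variable {D : Type} [CommGroup D] [TopologicalSpace D] [IsTopologicalGroup D]

theorem ev_apply (g : D) (χ : Du D) : ev D g χ = χ g := rfl

theorem ev_continuous (h : ∀ Q : Set (Du D), IsCompact Q → ∀ ε > 0,
    ∀ᶠ x in 𝓝 (1 : D), ∀ χ ∈ Q, dl (χ x) < ε) : Continuous (ev D) := by
  apply continuous_of_continuousAt_one
  change Tendsto (ev D) (𝓝 1) (𝓝 (ev D 1))
  rw [map_one, du_tendsto]
  intro Q hQ ε hε
  exact h Q hQ ε hε

theorem equicont_of_ev (h : Continuous (ev D)) (Q : Set (Du D)) (hQ : IsCompact Q) (ε : ℝ)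
    (hε : 0 < ε) : ∀ᶠ x in 𝓝 (1 : D), ∀ χ ∈ Q, dl (χ x) < ε := by
  have h1 : Tendsto (ev D) (𝓝 1) (𝓝 (ev D 1)) := h.tendsto 1
  rw [map_one, du_tendsto] at h1
  exact h1 Q hQ ε hε

/-- duality for discrete groups: surjectivity -/
theorem disc_surj [DiscreteTopology D] (Φ : Du (Du D)) : ∃ d, ∀ χ, Φ χ = χ d := by
  have h := Pool.Agent.Helper69.CC.mem_of_separates (Γ := Du D) (ev D).range (by
    intro x y hxy
    by_contra hcon
    push Not at hcon
    apply hxy
    ext d
    exact congrArg _ (hcon (ev D d) ⟨d, rfl⟩)) Φ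
  obtain ⟨d, hd⟩ := h
  exact ⟨d, fun χ => by rw [← hd]; rfl⟩

/-- duality for compact groups -/
theorem compact_refl [CompactSpace D] [T2Space D] : Reflexive D := by
  haveI : DiscreteTopology (Du D) := inferInstanceAs (DiscreteTopology (PontryaginDual D))
  have hcont : Continuous (ev D) :=
    ev_continuous fun Q hQ ε hε => equicont_of_compact hQ hε
  have hinj : Function.Injective (ev D) := by
    rw [injective_iff_map_eq_one]
    intro a ha
    by_contra hne
    obtain ⟨χ, hχ, h⟩ := Pool.Agent.TH264.Bridge.char_sep_mul D a hne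
    apply h
    have := DFunLike.congr_fun ha (⟨χ, hχ⟩ : Du D)
    exact this
  have hsurj : Function.Surjective (ev D) := by
    have h := Pool.Agent.Helper69.CC.eq_top_of_annihilator (Γ := Du (Du D)) (ev (Du D)).range
      (by
        intro x y hxy
        by_contra hcon
        push Not at hcon
        apply hxy
        ext d
        exact congrArg _ (hcon (ev (Du D) d) ⟨d, rfl⟩)) (ev D).range (by
          exact (isCompact_range hcont).isClosed) (by
          rintro _ ⟨χ, rfl⟩ h
          have : χ = 1 := by
            ext d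
            exact congrArg _ (h (ev D d) ⟨d, rfl⟩)
          rw [this, map_one])
    intro Φ
    have : Φ ∈ (ev D).range := by rw [h]; trivial
    exact this
  exact (Continuous.homeoOfEquivCompactToT2 (f := Equiv.ofBijective _ ⟨hinj, hsurj⟩) hcont).isHomeomorph

end Pool.Agent.V1184.RF
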