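import Mathlib
import Pool.Agent.V1184.RF.Dual

set_option autoImplicit false
set_option linter.unusedSectionVars false
set_option linter.style.haveILetI false

namespace Pool.Agent.V1184.RF

open Topology Filter Set

variable {X : Type} [CommGroup X] [TopologicalSpace X] [IsTopologicalGroup X]

/-- neighbourhoods in a reflexive group -/
theorem refl_nhds (hR : Reflexive X) {U : Set X} (hU : U ∈ 𝓝 (1 : X)) :
    ∃ S : Set (Du X), IsCompact S ∧ ∃ ε > 0, {x : X | ∀ χ ∈ S, dl (χ x) < ε} ⊆ U := by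
  rw [hR.isInducing.nhds_eq_comap, map_one] at hU
  obtain ⟨V, hV, hVU⟩ := hU
  obtain ⟨S, hS, ε, hε, h⟩ := du_nhds hV
  exact ⟨S, hS, ε, hε, fun x hx => hVU (h hx)⟩

theorem refl_tendsto (hR : Reflexive X) {α : Type} {l : Filter α} {f : α → X}
    (h : ∀ S : Set (Du X), IsCompact S → ∀ ε > 0, ∀ᶠ a in l, ∀ χ ∈ S, dl (χ (f a)) < ε) :
    Tendsto f l (𝓝 1) := by
  rw [hR.isInducing.tendsto_nhds_iff, map_one, du_tendsto]
  exact h

theorem lift_family (hR : Reflexive X) (L : Subgroup (Du X)) (hL : IsOpen (L : Set (Du X)))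
    {P : Type} (F : Filter P) (x : P → X)
    (hx : ∀ C : Set (Du X), C ⊆ L → IsCompact C → ∀ ε > 0, ∀ᶠ p in F, ∀ χ ∈ C, dl (χ (x p)) < ε) :
    ∃ z : P → X, (∀ p, ∀ χ ∈ L, χ (z p) = χ (x p)) ∧ Tendsto z F (𝓝 1) := by
  let M : Subgroup (P → Circle) :=
    { carrier := {m | Tendsto m F (𝓝 1)}
      one_mem' := tendsto_const_nhds
      mul_mem' := by
        intro a b ha hb
        have := Tendsto.mul ha hb
        rwa [one_mul] at this
      inv_mem' := by
        intro a ha
        have := Tendsto.inv ha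
        rwa [inv_one] at this }
  have hdiv : ∀ n : ℕ, n ≠ 0 → ∀ m : M, ∃ m' : M, m' ^ n = m := by
    intro n hn m
    refine ⟨⟨fun p => rt n (m.1 p), (rt_tendsto n).comp m.2⟩, ?_⟩
    apply Subtype.ext
    funext p
    exact rt_pow n hn _
  let f : L →* M :=
    { toFun := fun χ => ⟨fun p => χ.1 (x p), by
        change Tendsto _ F (𝓝 1)
        rw [tendsto_iff]
        intro ε hε
        filter_upwards [hx {χ.1} (Set.singleton_subset_iff.2 χ.2) isCompact_singleton ε hε] with p hp
        exact hp _ rfl⟩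
      map_one' := rfl
      map_mul' := fun _ _ => rfl }
  obtain ⟨E, hE⟩ := ext_hom L hdiv f
  have hcont : ∀ p, Continuous (fun χ : Du X => (E χ).1 p) := by
    intro p
    let g : Du X →* Circle :=
      { toFun := fun χ => (E χ).1 p
        map_one' := by rw [map_one]; rfl
        map_mul' := fun a b => by rw [map_mul]; rfl }
    have : Continuous g := by
      apply continuous_of_continuousAt_one
      have h1 : ContinuousAt (fun χ : Du X => χ (x p)) 1 :=
        (continuous_eval_const (x p)).continuousAt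
      refine h1.congr ?_
      filter_upwards [hL.mem_nhds L.one_mem] with χ hχ
      have := hE ⟨χ, hχ⟩
      change χ (x p) = (E χ).1 p
      rw [this]
      rfl
    exact this
  let y : P → Du (Du X) := fun p =>
    { toFun := fun χ => (E χ).1 p
      map_one' := by rw [map_one]; rfl
      map_mul' := fun a b => by rw [map_mul]; rfl
      continuous_toFun := hcont p }
  choose z hz using fun p => hR.surjective (y p)
  have hz' : ∀ p (χ : Du X), χ (z p) = (E χ).1 p := fun p χ => DFunLike.congr_fun (hz p) χ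
  have hzL : ∀ p, ∀ χ ∈ L, χ (z p) = χ (x p) := by
    intro p χ hχ
    rw [hz' p χ, hE ⟨χ, hχ⟩]
    rfl
  refine ⟨z, hzL, ?_⟩
  apply refl_tendsto hR
  intro S hS ε hε
  obtain ⟨t, _, ht⟩ := hS.elim_nhds_subcover (fun c => {χ : Du X | c⁻¹ * χ ∈ L}) (by
    intro c _
    refine (hL.preimage (continuous_const.mul continuous_id)).mem_nhds ?_
    change c⁻¹ * c ∈ L
    rw [inv_mul_cancel]
    exact L.one_mem)
  have hLc : IsClosed (L : Set (Du X)) := Subgroup.isClosed_of_isOpen L hL
  have hev : ∀ c ∈ t, ∀ᶠ p in F, dl (c (z p)) < ε / 2 ∧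
      ∀ μ ∈ ((fun χ : Du X => c⁻¹ * χ) '' S) ∩ (L : Set (Du X)), dl (μ (x p)) < ε / 2 := by
    intro c _
    have h1 : ∀ᶠ p in F, dl (c (z p)) < ε / 2 := by
      have := (tendsto_iff.1 (E c).2) (ε / 2) (by linarith)
      filter_upwards [this] with p hp
      rw [hz']
      exact hp
    have h2 := hx (((fun χ : Du X => c⁻¹ * χ) '' S) ∩ (L : Set (Du X))) Set.inter_subset_right
      ((hS.image (continuous_const.mul continuous_id)).inter_right hLc) (ε / 2) (by linarith)
    exact h1.and h2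
  have hev' := (Filter.eventually_all_finset t).2 hev
  filter_upwards [hev'] with p hp χ hχ
  have h3 := ht hχ
  simp only [Set.mem_iUnion] at h3
  obtain ⟨c, hc, hcL⟩ := h3
  obtain ⟨h4, h5⟩ := hp c hc
  have h6 := h5 (c⁻¹ * χ) ⟨⟨χ, hχ, rfl⟩, hcL⟩
  have h7 : χ (z p) = c (z p) * (c⁻¹ * χ) (z p) := by
    change χ (z p) = c (z p) * ((c (z p))⁻¹ * χ (z p))
    rw [mul_inv_cancel_left]
  rw [h7]
  refine lt_of_le_of_lt (dl_mul _ _) ?_
  rw [hzL p _ hcL]
  linarith

end Pool.Agent.V1184.RF
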