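import Mathlib
import Pool.Agent.V1184.RF.Lift

set_option autoImplicit false
set_option linter.unusedSectionVars false
set_option linter.style.haveILetI false

namespace Pool.Agent.V1184.RF

open Topology Filter Set

variable {I X : Type} [CommGroup X] [UniformSpace X] [IsUniformGroup X]

/-- coordinates -/
def co (i : I) (x : Fam I X) : X := UniformFun.toFun x i

theorem co_mul (i : I) (x y : Fam I X) : co i (x * y) = co i x * co i y := rfl
theorem co_inv (i : I) (x : Fam I X) : co i x⁻¹ = (co i x)⁻¹ := rfl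
theorem co_one (i : I) : co i (1 : Fam I X) = 1 := rfl

theorem co_ext {x y : Fam I X} (h : ∀ i, co i x = co i y) : x = y := funext h

theorem fam_nhds {W : Set (Fam I X)} (hW : W ∈ 𝓝 (1 : Fam I X)) :
    ∃ U ∈ 𝓝 (1 : X), {x : Fam I X | ∀ i, co i x ∈ U} ⊆ W :=
  (UniformFun.hasBasis_nhds_one (α := I) (G := X)).mem_iff.1 hW

theorem fam_mem {U : Set X} (hU : U ∈ 𝓝 (1 : X)) :
    {x : Fam I X | ∀ i, co i x ∈ U} ∈ 𝓝 (1 : Fam I X) :=
  (UniformFun.hasBasis_nhds_one (α := I) (G := X)).mem_of_mem hU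

variable (G : Subgroup (Fam I X))

theorem sub_nhds {W : Set G} (hW : W ∈ 𝓝 (1 : G)) :
    ∃ U ∈ 𝓝 (1 : X), {x : G | ∀ i, co i x.1 ∈ U} ⊆ W := by
  rw [nhds_subtype_eq_comap] at hW
  obtain ⟨V, hV, hVW⟩ := hW
  obtain ⟨U, hU, h⟩ := fam_nhds hV
  exact ⟨U, hU, fun x hx => hVW (h hx)⟩

theorem sub_mem {U : Set X} (hU : U ∈ 𝓝 (1 : X)) :
    {x : G | ∀ i, co i x.1 ∈ U} ∈ 𝓝 (1 : G) := by
  rw [nhds_subtype_eq_comap]
  exact ⟨_, fam_mem hU, fun x hx => hx⟩

theorem sub_tendsto {α : Type} {l : Filter α} {f : α → G} :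
    Tendsto f l (𝓝 1) ↔ ∀ U ∈ 𝓝 (1 : X), ∀ᶠ a in l, ∀ i, co i (f a).1 ∈ U := by
  constructor
  · intro h U hU
    exact h (sub_mem G hU)
  · intro h W hW
    obtain ⟨U, hU, hs⟩ := sub_nhds G hW
    exact Filter.mem_of_superset (h U hU) (fun a ha => hs ha)

/-- coordinate characters on a subgroup of the group of families -/
def pr (i : I) : G →ₜ* X where
  toFun x := co i x.1
  map_one' := rfl
  map_mul' _ _ := rfl
  continuous_toFun := by
    have h1 : Continuous (fun x : Fam I X => co i x) :=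
      (UniformFun.uniformContinuous_eval X i).continuous
    exact h1.comp continuous_subtype_val

/-- basic neighbourhoods -/
def Nb (S : Set (Du X)) (ε : ℝ) : Set G := {x : G | ∀ i, ∀ χ ∈ S, dl (χ (co i x.1)) < ε}

theorem Nb_mem [LocallyCompactSpace X] {S : Set (Du X)} (hS : IsCompact S) {ε : ℝ} (hε : 0 < ε) :
    Nb G S ε ∈ 𝓝 (1 : G) := by
  have h := sub_mem G (equicont_of_compact hS hε)
  exact h

theorem Nb_base (hR : Reflexive X) {W : Set G} (hW : W ∈ 𝓝 (1 : G)) :
    ∃ S : Set (Du X), IsCompact S ∧ ∃ ε > 0, Nb G S ε ⊆ W := by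
  obtain ⟨U, hU, h⟩ := sub_nhds G hW
  obtain ⟨S, hS, ε, hε, h2⟩ := refl_nhds hR hU
  exact ⟨S, hS, ε, hε, fun x hx => h fun i => h2 (hx i)⟩

/-- the state of the recursion -/
structure St (X : Type) [CommGroup X] [TopologicalSpace X] where
  S : Set (Du X)
  e : ℝ
  hS : IsCompact S
  he : 0 < e

open Pointwise in
theorem equicont_fam [LocallyCompactSpace X] (hR : Reflexive X)
    (hlift : ∀ L : Subgroup (Du X), IsOpen (L : Set (Du X)) → ∀ x : ℕ → G,
      (∀ C : Set (Du X), C ⊆ L → IsCompact C → ∀ ε > 0, ∃ n0, ∀ n ≥ n0, ∀ i, ∀ χ ∈ C,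
        dl (χ (co i (x n).1)) < ε) →
      ∃ z : ℕ → G, (∀ n i, ∀ χ ∈ L, χ (co i (z n).1) = χ (co i (x n).1)) ∧
        Tendsto z atTop (𝓝 1))
    (Q : Set (Du G)) (hQ : IsCompact Q) (η : ℝ) (hη : 0 < η) :
    ∀ᶠ x in 𝓝 (1 : G), ∀ χ ∈ Q, dl (χ x) < η := by
  by_contra hcon
  have hfail : ∀ W ∈ 𝓝 (1 : G), ∃ x ∈ W, ∃ χ ∈ Q, η ≤ dl (χ x) := by
    intro W hW
    by_contra h
    push Not at h
    exact hcon (Filter.mem_of_superset hW h)
  haveI : LocallyCompactSpace (Du X) := inferInstanceAs (LocallyCompactSpace (PontryaginDual X))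
  have h1 : ∀ s : St X, ∃ x ∈ Nb G s.S s.e, ∃ χ ∈ Q, η ≤ dl (χ x) :=
    fun s => hfail _ (Nb_mem G s.hS s.he)
  choose xs hxs cs hcs hη' using h1
  have h2 : ∀ s : St X, ∃ s' : St X, Nb G s'.S s'.e ⊆ {w : G | dl (cs s w) < 1} ∧
      s.S ⊆ s'.S ∧ s.S * s.S ⊆ s'.S ∧ (s.S)⁻¹ ⊆ s'.S ∧ s'.e ≤ s.e / 2 := by
    intro s
    have hopen : {w : G | dl (cs s w) < 1} ∈ 𝓝 (1 : G) := by
      have : Continuous fun w : G => dl (cs s w) := dl_continuous.comp (cs s).continuous_toFun
      refine (isOpen_lt this continuous_const).mem_nhds ?_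
      change dl (cs s 1) < 1
      rw [map_one, dl_one]
      exact one_pos
    obtain ⟨S', hS', ε', hε', hN⟩ := Nb_base G hR hopen
    refine ⟨⟨S' ∪ (s.S ∪ (s.S * s.S ∪ (s.S)⁻¹)), min ε' (s.e / 2),
      hS'.union (s.hS.union ((s.hS.mul s.hS).union s.hS.inv)),
      lt_min hε' (by have := s.he; linarith)⟩, ?_, ?_, ?_, ?_, min_le_right _ _⟩
    · intro w hw
      apply hN
      intro i χ hχ
      exact lt_of_lt_of_le (hw i χ (Or.inl hχ)) (min_le_left _ _)
    · exact fun χ hχ => Or.inr (Or.inl hχ)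
    · exact fun χ hχ => Or.inr (Or.inr (Or.inl hχ))
    · exact fun χ hχ => Or.inr (Or.inr (Or.inr hχ))
  choose nx hnx1 hnx2 hnx3 hnx4 hnx5 using h2
  obtain ⟨K0, hK0c, hK0⟩ := exists_compact_mem_nhds (1 : Du X)
  let s : ℕ → St X := fun n => nx^[n] ⟨K0, 1, hK0c, one_pos⟩
  have hs : ∀ n, s (n + 1) = nx (s n) := fun n => Function.iterate_succ_apply' nx n _
  have hmono : Monotone fun n => (s n).S := by
    apply monotone_nat_of_le_succ
    intro n
    rw [hs]
    exact hnx2 _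
  have hone : ∀ n, (1 : Du X) ∈ (s n).S := fun n => hmono (Nat.zero_le n) (mem_of_mem_nhds hK0)
  let L : Subgroup (Du X) :=
    { carrier := ⋃ n, (s n).S
      one_mem' := Set.mem_iUnion.2 ⟨0, hone 0⟩
      mul_mem' := by
        intro a b ha hb
        obtain ⟨m, hm⟩ := Set.mem_iUnion.1 ha
        obtain ⟨n, hn⟩ := Set.mem_iUnion.1 hb
        refine Set.mem_iUnion.2 ⟨max m n + 1, ?_⟩
        rw [hs]
        exact hnx3 _ (Set.mul_mem_mul (hmono (le_max_left m n) hm) (hmono (le_max_right m n) hn))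
      inv_mem' := by
        intro a ha
        obtain ⟨m, hm⟩ := Set.mem_iUnion.1 ha
        refine Set.mem_iUnion.2 ⟨m + 1, ?_⟩
        rw [hs]
        exact hnx4 _ (Set.inv_mem_inv.2 hm) }
  have hLopen : IsOpen (L : Set (Du X)) := by
    apply L.isOpen_of_mem_nhds (g := 1)
    exact Filter.mem_of_superset hK0 fun χ hχ => Set.mem_iUnion.2 ⟨0, hχ⟩
  have hcov : ∀ C : Set (Du X), C ⊆ L → IsCompact C → ∃ n, C ⊆ (s n).S := by
    intro C hC hCc
    obtain ⟨n, hn⟩ := hCc.elim_directed_cover (fun n => interior (s n).S)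
      (fun n => isOpen_interior) (by
        intro χ hχ
        obtain ⟨n, hn⟩ := Set.mem_iUnion.1 (hC hχ)
        refine Set.mem_iUnion.2 ⟨n + 1, ?_⟩
        rw [mem_interior_iff_mem_nhds, hs]
        have h5 : (fun y => χ * y) '' K0 ∈ 𝓝 χ := by
          have := (Homeomorph.mulLeft χ).isOpenMap.image_mem_nhds hK0
          have e : (Homeomorph.mulLeft χ) 1 = χ := mul_one χ
          rw [e] at this
          exact this
        refine Filter.mem_of_superset h5 ?_
        rintro _ ⟨y, hy, rfl⟩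
        exact hnx3 _ (Set.mul_mem_mul hn (hmono (Nat.zero_le n) hy)))
      (by
        apply Monotone.directed_le
        intro a b hab
        exact interior_mono (hmono hab))
    exact ⟨n, hn.trans interior_subset⟩
  have he : ∀ n, (s n).e ≤ (1 / 2) ^ n := by
    intro n
    induction n with
    | zero => exact le_of_eq (by simp [s])
    | succ n ih =>
      rw [hs]
      refine (hnx5 _).trans ?_
      rw [pow_succ]
      linarith
  obtain ⟨z, hz1, hz2⟩ := hlift L hLopen (fun n => xs (s n)) (by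
    intro C hC hCc ε hε
    obtain ⟨n1, hn1⟩ := hcov C hC hCc
    obtain ⟨n2, hn2⟩ := exists_pow_lt_of_lt_one hε (by norm_num : (1 / 2 : ℝ) < 1)
    refine ⟨max n1 n2, fun n hn i χ hχ => ?_⟩
    have h6 := hxs (s n) i χ (hmono ((le_max_left n1 n2).trans hn) (hn1 hχ))
    refine h6.trans_le ((he n).trans ?_)
    refine le_trans ?_ hn2.le
    exact pow_le_pow_of_le_one (by norm_num) (by norm_num) ((le_max_right n1 n2).trans hn))
  have hKc : IsCompact (insert 1 (Set.range z)) := hz2.isCompact_insert_range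
  have hev : ∀ᶠ n in atTop, ∀ χ ∈ Q, dl (χ (z n)) < η := by
    refine hQ.induction_on (p := fun A => ∀ᶠ n in atTop, ∀ χ ∈ A, dl (χ (z n)) < η) ?_ ?_ ?_ ?_
    · exact Filter.Eventually.of_forall fun n χ hχ => absurd hχ (Set.notMem_empty _)
    · intro A B hAB hB
      filter_upwards [hB] with n hn χ hχ
      exact hn χ (hAB hχ)
    · intro A B hA hB
      filter_upwards [hA, hB] with n h7 h8 χ hχ
      rcases hχ with hχ | hχ
      · exact h7 χ hχ
      · exact h8 χ hχ
    · intro χ0 _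
      have h9 : {χ : Du G | ∀ x ∈ insert 1 (Set.range z), dl ((χ * χ0⁻¹) x) < η / 2} ∈ 𝓝 χ0 := by
        have hc : Continuous fun χ : Du G => χ * χ0⁻¹ := continuous_id.mul continuous_const
        have := hc.tendsto χ0
        rw [mul_inv_cancel] at this
        exact this (mem_du_of hKc (by linarith))
      refine ⟨_, mem_nhdsWithin_of_mem_nhds h9, ?_⟩
      have h10 : Tendsto (fun n => χ0 (z n)) atTop (𝓝 (χ0 1)) :=
        (χ0.continuous_toFun.tendsto 1).comp hz2
      rw [map_one, tendsto_iff] at h10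
      filter_upwards [h10 (η / 2) (by linarith)] with n hn χ hχ
      have h11 := hχ (z n) (Or.inr ⟨n, rfl⟩)
      have h12 : χ (z n) = (χ * χ0⁻¹) (z n) * χ0 (z n) := by
        change χ (z n) = χ (z n) * (χ0 (z n))⁻¹ * χ0 (z n)
        rw [inv_mul_cancel_right]
      rw [h12]
      refine lt_of_le_of_lt (dl_mul _ _) ?_
      linarith
  obtain ⟨n, hn⟩ := hev.exists
  have h13 := hn (cs (s n)) (hcs (s n))
  have h14 := hη' (s n)
  let H : Subgroup G :=
    { carrier := {w | ∀ i, ∀ χ ∈ L, χ (co i w.1) = 1}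
      one_mem' := fun i χ _ => map_one χ
      mul_mem' := fun {a b} ha hb i χ hχ => by
        change χ (co i a.1 * co i b.1) = 1
        rw [map_mul, ha i χ hχ, hb i χ hχ, one_mul]
      inv_mem' := fun {a} ha i χ hχ => by
        change χ (co i a.1)⁻¹ = 1
        rw [map_inv, ha i χ hχ, inv_one] }
  have h15 : cs (s n) (z n * (xs (s n))⁻¹) = 1 := by
    apply hom_trivial (cs (s n)).toMonoidHom H
    · intro w hw
      apply hnx1 (s n)
      intro i χ hχ
      have h16 : χ ∈ L := by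
        refine Set.mem_iUnion.2 ⟨n + 1, ?_⟩
        rw [hs]
        exact hχ
      rw [hw i χ h16, dl_one]
      exact (nx (s n)).he
    · intro i χ hχ
      change χ (co i (z n).1 * (co i (xs (s n)).1)⁻¹) = 1
      rw [map_mul, map_inv, hz1 n i χ hχ, mul_inv_cancel]
  have h17 : cs (s n) (z n) = cs (s n) (xs (s n)) := by
    rw [map_mul, map_inv, mul_inv_eq_one] at h15
    exact h15
  rw [h17] at h13
  linarith

end Pool.Agent.V1184.RF
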