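import Mathlib
import Pool.Agent.V1184.RF.Fam

set_option autoImplicit false
set_option linter.unusedSectionVars false
set_option linter.style.haveILetI false

namespace Pool.Agent.V1184.RF

open Topology Filter Set

theorem cmh_prod_apply {A ι : Type} [CommGroup A] [TopologicalSpace A] (J : Finset ι)
    (g : ι → Du A) (x : A) : (∏ f ∈ J, g f) x = ∏ f ∈ J, g f x := by
  classical
  induction J using Finset.induction_on with
  | empty => simp
  | insert a s ha ih =>
    rw [Finset.prod_insert ha, Finset.prod_insert ha, ← ih]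
    rfl

/-- general criterion: a continuous bijective evaluation map which is inducing at the identity -/
theorem reflexive_of {G : Type} [CommGroup G] [TopologicalSpace G] [IsTopologicalGroup G]
    (hc : Continuous (ev G)) (hinj : Function.Injective (ev G)) (hsurj : Function.Surjective (ev G))
    (hind : ∀ W ∈ 𝓝 (1 : G), ∃ Q : Set (Du G), IsCompact Q ∧ ∃ ε > 0,
      {x : G | ∀ χ ∈ Q, dl (χ x) < ε} ⊆ W) : Reflexive G := by
  have h1 : IsInducing (ev G) := by
    rw [IsTopologicalGroup.isInducing_iff_nhds_one]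
    apply le_antisymm
    · have : Tendsto (ev G) (𝓝 1) (𝓝 (ev G 1)) := hc.tendsto 1
      rw [map_one] at this
      exact this.le_comap
    · intro W hW
      obtain ⟨Q, hQ, ε, hε, h⟩ := hind W hW
      exact ⟨{Φ : Du (Du G) | ∀ χ ∈ Q, dl (Φ χ) < ε}, mem_du_of hQ hε, fun x hx => h hx⟩
  rw [Reflexive, isHomeomorph_iff_isEmbedding_surjective]
  exact ⟨⟨h1, hinj⟩, hsurj⟩

variable {I X : Type} [CommGroup X] [UniformSpace X] [IsUniformGroup X]
variable (G : Subgroup (Fam I X))

theorem refl_of [LocallyCompactSpace X] (hR : Reflexive X)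
    (hlift : ∀ L : Subgroup (Du X), IsOpen (L : Set (Du X)) → ∀ x : ℕ → G,
      (∀ C : Set (Du X), C ⊆ L → IsCompact C → ∀ ε > 0, ∃ n0, ∀ n ≥ n0, ∀ i, ∀ χ ∈ C,
        dl (χ (co i (x n).1)) < ε) →
      ∃ z : ℕ → G, (∀ n i, ∀ χ ∈ L, χ (co i (z n).1) = χ (co i (x n).1)) ∧
        Tendsto z atTop (𝓝 1))
    (hAP : ∀ C : Set G, IsCompact C → ∀ W ∈ 𝓝 (1 : G), ∃ (J : Finset I) (β : I → (X →ₜ* G)),
      ∀ x ∈ C, x * (∏ f ∈ J, β f (co f x.1))⁻¹ ∈ W)
    (hmem : ∀ (Φ : Du (Du G)) (y : I → X),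
      (∀ i, ∀ χ : Du X, χ (y i) = Φ (χ.comp (pr G i))) → (UniformFun.ofFun y : Fam I X) ∈ G) :
    Reflexive G := by
  apply reflexive_of
  · exact ev_continuous (equicont_fam G hR hlift)
  · rw [injective_iff_map_eq_one]
    intro x hx
    apply Subtype.ext
    apply co_ext
    intro i
    apply hR.injective
    ext χ
    have := DFunLike.congr_fun hx (χ.comp (pr G i))
    have h2 : χ (co i x.1) = 1 := this
    rw [ev_apply, h2]
    change (1 : ℂ) = ((χ (1 : X) : Circle) : ℂ)
    rw [map_one]; rfl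
  · intro Φ
    have hy : ∀ i, ∃ y : X, ∀ χ : Du X, χ y = Φ (χ.comp (pr G i)) := by
      intro i
      obtain ⟨y, hy⟩ := hR.surjective (Φ.comp (ContinuousMonoidHom.compLeft Circle (pr G i)))
      exact ⟨y, fun χ => DFunLike.congr_fun hy χ⟩
    choose y hy using hy
    let x : G := ⟨UniformFun.ofFun y, hmem Φ y hy⟩
    refine ⟨x, ?_⟩
    let Ψ : Du (Du G) := Φ * (ev G x)⁻¹
    have hΨ : ∀ (i : I) (χ : Du X), Ψ (χ.comp (pr G i)) = 1 := by
      intro i χ
      change Φ (χ.comp (pr G i)) * (χ (y i))⁻¹ = 1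
      rw [← hy i χ, mul_inv_cancel]
    have hone : ∀ χ : Du G, Ψ χ = 1 := by
      intro χ
      apply eq_one_of_forall
      intro ε hε
      have h1 : {ξ : Du G | dl (Ψ ξ) < ε} ∈ 𝓝 (1 : Du G) := by
        have : Continuous fun ξ : Du G => dl (Ψ ξ) := dl_continuous.comp Ψ.continuous_toFun
        refine (isOpen_lt this continuous_const).mem_nhds ?_
        change dl (Ψ 1) < ε
        rw [map_one, dl_one]
        exact hε
      obtain ⟨C, hC, δ, hδ, hs⟩ := du_nhds h1
      have h2 : {w : G | dl (χ w) < δ} ∈ 𝓝 (1 : G) := by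
        have : Continuous fun w : G => dl (χ w) := dl_continuous.comp χ.continuous_toFun
        refine (isOpen_lt this continuous_const).mem_nhds ?_
        change dl (χ 1) < δ
        rw [map_one, dl_one]
        exact hδ
      obtain ⟨J, β, hβ⟩ := hAP C hC _ h2
      let ψ : Du G := ∏ f ∈ J, (χ.comp (β f)).comp (pr G f)
      have h3 : Ψ ψ = 1 := by
        change Ψ (∏ f ∈ J, (χ.comp (β f)).comp (pr G f)) = 1
        rw [map_prod]
        exact Finset.prod_eq_one fun f _ => hΨ f _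
      have h4 : χ * ψ⁻¹ ∈ {ξ : Du G | ∀ x ∈ C, dl (ξ x) < δ} := by
        intro w hw
        have h5 : (χ * ψ⁻¹) w = χ (w * (∏ f ∈ J, β f (co f w.1))⁻¹) := by
          change χ w * (ψ w)⁻¹ = _
          rw [map_mul, map_inv, map_prod]
          congr 2
          change (∏ f ∈ J, (χ.comp (β f)).comp (pr G f)) w = _
          rw [cmh_prod_apply]
          rfl
        rw [h5]
        exact hβ w hw
      have h6 := hs h4
      change dl (Ψ (χ * ψ⁻¹)) < ε at h6
      rw [map_mul, map_inv, h3, inv_one, mul_one] at h6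
      exact h6
    ext χ
    have h7 : Φ χ * (χ x)⁻¹ = 1 := hone χ
    rw [mul_inv_eq_one] at h7
    rw [ev_apply, h7]
  · intro W hW
    obtain ⟨S, hS, ε, hε, hN⟩ := Nb_base G hR hW
    refine ⟨{ψ : Du G | ∀ n : ℕ, ∀ x ∈ Nb G S (1 / ((n : ℝ) + 1)), dl (ψ x) ≤ 1 / ((n : ℝ) + 1)},
      isCompact_polar _ (fun n => Nb_mem G hS (by positivity)), ε, hε, ?_⟩
    intro x hx
    apply hN
    intro i χ hχ
    exact hx (χ.comp (pr G i)) (fun n w hw => (hw i χ hχ).le)

end Pool.Agent.V1184.RF
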