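import Mathlib
import Pool.Agent.V1184.RF.Main

set_option autoImplicit false
set_option linter.unusedSectionVars false
set_option linter.style.haveILetI false

namespace Pool.Agent.V1184.RF

open Topology Filter Set

variable {I X : Type} [CommGroup X] [UniformSpace X] [IsUniformGroup X]

/-- block homomorphism -/
theorem tb_iff {x : Fam I X} : x ∈ linf I X ↔ TotallyBounded (Set.range fun i => co i x) := Iff.rfl

theorem c0_iff {x : Fam I X} : x ∈ c0 I X ↔ Tendsto (fun i => co i x) cofinite (𝓝 1) := Iff.rfl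

/-- a compact subset of a group of families is covered by finitely many translates -/
theorem cover (G : Subgroup (Fam I X)) {C : Set G} (hC : IsCompact C) {U : Set X}
    (hU : U ∈ 𝓝 (1 : X)) : ∃ t : Finset G, ∀ x ∈ C, ∃ c ∈ t, ∀ i, (co i c.1)⁻¹ * co i x.1 ∈ U := by
  obtain ⟨t, _, ht⟩ := hC.elim_nhds_subcover (fun c => {x : G | c⁻¹ * x ∈ {w : G | ∀ i, co i w.1 ∈ U}})
    (by
      intro c _
      have h1 : Tendsto (fun x : G => c⁻¹ * x) (𝓝 c) (𝓝 1) := by
        have : Continuous fun x : G => c⁻¹ * x := continuous_const.mul continuous_id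
        have h2 := this.tendsto c
        rwa [inv_mul_cancel] at h2
      exact h1 (sub_mem G hU))
  refine ⟨t, fun x hx => ?_⟩
  have := ht hx
  simp only [Set.mem_iUnion] at this
  obtain ⟨c, hc, h⟩ := this
  exact ⟨c, hc, h⟩

/-- block homomorphisms -/
noncomputable def blk (G : Subgroup (Fam I X)) (B : Set I) [DecidablePred (· ∈ B)]
    (hB : ∀ k : X, (UniformFun.ofFun (fun i => if i ∈ B then k else 1) : Fam I X) ∈ G) : X →ₜ* G where
  toFun k := ⟨UniformFun.ofFun (fun i => if i ∈ B then k else 1), hB k⟩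
  map_one' := by
    apply Subtype.ext
    apply co_ext
    intro i
    change (if i ∈ B then (1 : X) else 1) = 1
    simp
  map_mul' a b := by
    apply Subtype.ext
    apply co_ext
    intro i
    change (if i ∈ B then a * b else (1 : X)) = (if i ∈ B then a else 1) * (if i ∈ B then b else 1)
    split_ifs <;> simp
  continuous_toFun := by
    let f : X →* G :=
      { toFun := fun k => ⟨UniformFun.ofFun (fun i => if i ∈ B then k else 1), hB k⟩
        map_one' := by
          apply Subtype.ext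
          apply co_ext
          intro i
          change (if i ∈ B then (1 : X) else 1) = 1
          simp
        map_mul' := fun a b => by
          apply Subtype.ext
          apply co_ext
          intro i
          change (if i ∈ B then a * b else (1 : X)) =
            (if i ∈ B then a else 1) * (if i ∈ B then b else 1)
          split_ifs <;> simp }
    have : Continuous f := by
      apply continuous_of_continuousAt_one
      change Tendsto f (𝓝 1) (𝓝 (f 1))
      rw [map_one, sub_tendsto]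
      intro U hU
      filter_upwards [hU] with k hk i
      change (if i ∈ B then k else 1) ∈ U
      split_ifs
      · exact hk
      · exact mem_of_mem_nhds hU
    exact this

theorem co_prod {G : Subgroup (Fam I X)} (J : Finset I) (g : I → G) (i : I) :
    co i (∏ f ∈ J, g f).1 = ∏ f ∈ J, co i (g f).1 := by
  classical
  induction J using Finset.induction_on with
  | empty => rfl
  | insert a s ha ih =>
    rw [Finset.prod_insert ha, Finset.prod_insert ha, ← ih]
    rfl

section c0

theorem c0_unif {C : Set (c0 I X)} (hC : IsCompact C) {U : Set X} (hU : U ∈ 𝓝 (1 : X)) :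
    {i : I | ∃ x ∈ C, co i x.1 ∉ U}.Finite := by
  obtain ⟨V, hV, hVU⟩ := exists_nhds_one_split hU
  obtain ⟨t, ht⟩ := cover (c0 I X) hC hV
  have h1 : ∀ c ∈ t, {i : I | co i c.1 ∉ V}.Finite := fun c _ => (c0_iff.1 c.2) hV
  refine Set.Finite.subset (t.finite_toSet.biUnion h1) ?_
  rintro i ⟨x, hx, hi⟩
  obtain ⟨c, hc, h⟩ := ht x hx
  simp only [Set.mem_iUnion]
  refine ⟨c, hc, fun hcV => hi ?_⟩
  have := hVU _ hcV _ (h i)
  rwa [mul_inv_cancel_left] at this

theorem c0_lift [LocallyCompactSpace X] (hR : Reflexive X) (L : Subgroup (Du X))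
    (hL : IsOpen (L : Set (Du X))) (x : ℕ → c0 I X)
    (hx : ∀ C : Set (Du X), C ⊆ L → IsCompact C → ∀ ε > 0, ∃ n0, ∀ n ≥ n0, ∀ i, ∀ χ ∈ C,
        dl (χ (co i (x n).1)) < ε) :
    ∃ z : ℕ → c0 I X, (∀ n i, ∀ χ ∈ L, χ (co i (z n).1) = χ (co i (x n).1)) ∧
        Tendsto z atTop (𝓝 1) := by
  obtain ⟨z, hz1, hz2⟩ := lift_family hR L hL (P := ℕ × I) cofinite (fun p => co p.2 (x p.1).1) (by
    intro C hC hCc ε hε
    obtain ⟨n0, hn0⟩ := hx C hC hCc ε hε
    have h1 := equicont_of_compact hCc hε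
    have h2 : ∀ n, {i : I | co i (x n).1 ∉ {a : X | ∀ χ ∈ C, dl (χ a) < ε}}.Finite :=
      fun n => (c0_iff.1 (x n).2) h1
    have h3 : (⋃ n ∈ Finset.range n0, (fun i : I => (n, i)) ''
        {i : I | co i (x n).1 ∉ {a : X | ∀ χ ∈ C, dl (χ a) < ε}}).Finite :=
      (Finset.range n0).finite_toSet.biUnion fun n _ => (h2 n).image _
    refine Set.Finite.subset h3 ?_
    rintro ⟨n, i⟩ hni
    have h4 : co i (x n).1 ∉ {a : X | ∀ χ ∈ C, dl (χ a) < ε} := hni
    simp only [Set.mem_iUnion]
    refine ⟨n, ?_, ⟨i, h4, rfl⟩⟩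
    rw [Finset.mem_range]
    by_contra hlt
    exact h4 (hn0 n (not_lt.1 hlt) i))
  have hzm : ∀ n, (UniformFun.ofFun (fun i => z (n, i)) : Fam I X) ∈ c0 I X := by
    intro n
    have h5 : Function.Injective (fun i : I => (n, i)) := fun a b h => (Prod.ext_iff.1 h).2
    exact hz2.comp h5.tendsto_cofinite
  refine ⟨fun n => ⟨_, hzm n⟩, fun n i χ hχ => hz1 (n, i) χ hχ, ?_⟩
  rw [sub_tendsto]
  intro U hU
  have h6 : {p : ℕ × I | z p ∉ U}.Finite := hz2 hU
  have h7 := (h6.image Prod.fst).bddAbove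
  obtain ⟨N, hN⟩ := h7
  filter_upwards [Filter.eventually_gt_atTop N] with n hn i
  by_contra hni
  have : n ≤ N := hN ⟨(n, i), hni, rfl⟩
  omega

theorem c0_AP (C : Set (c0 I X)) (hC : IsCompact C) (W : Set (c0 I X)) (hW : W ∈ 𝓝 (1 : c0 I X)) :
    ∃ (J : Finset I) (β : I → (X →ₜ* c0 I X)), ∀ x ∈ C, x * (∏ f ∈ J, β f (co f x.1))⁻¹ ∈ W := by
  classical
  obtain ⟨U, hU, hUW⟩ := sub_nhds _ hW
  have hfin := c0_unif hC hU
  refine ⟨hfin.toFinset, fun f => blk (c0 I X) {f} (by
    intro k
    rw [c0_iff]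
    refine tendsto_const_nhds.congr' ?_
    refine Set.Finite.subset (Set.finite_singleton f) ?_
    intro i hi
    by_contra hif
    apply hi
    change (1 : X) = if i ∈ ({f} : Set I) then k else 1
    rw [if_neg hif]), fun x hx => ?_⟩
  apply hUW
  intro i
  change co i x.1 * (co i (∏ f ∈ hfin.toFinset, _ : c0 I X).1)⁻¹ ∈ U
  rw [co_prod]
  have h1 : ∀ f : I, co i ((blk (c0 I X) {f} (by
    intro k
    rw [c0_iff]
    refine tendsto_const_nhds.congr' ?_
    refine Set.Finite.subset (Set.finite_singleton f) ?_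
    intro i hi
    by_contra hif
    apply hi
    change (1 : X) = if i ∈ ({f} : Set I) then k else 1
    rw [if_neg hif])) (co f x.1)).1 = if i = f then co f x.1 else 1 := by
    intro f
    change (if i ∈ ({f} : Set I) then co f x.1 else 1) = _
    rfl
  rw [Finset.prod_congr rfl fun f _ => h1 f, Finset.prod_ite_eq]
  split_ifs with hi
  · rw [mul_inv_cancel]
    exact mem_of_mem_nhds hU
  · rw [inv_one, mul_one]
    by_contra hne
    exact hi (hfin.mem_toFinset.2 ⟨x, hx, hne⟩)

theorem c0_mem [LocallyCompactSpace X] (hR : Reflexive X) (Φ : Du (Du (c0 I X))) (y : I → X)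
    (hy : ∀ i, ∀ χ : Du X, χ (y i) = Φ (χ.comp (pr (c0 I X) i))) :
    (UniformFun.ofFun y : Fam I X) ∈ c0 I X := by
  rw [c0_iff]
  change Tendsto y cofinite (𝓝 1)
  intro U hU
  obtain ⟨S, hS, ε, hε, h1⟩ := refl_nhds hR hU
  have h2 : {ξ : Du (c0 I X) | dl (Φ ξ) < ε} ∈ 𝓝 (1 : Du (c0 I X)) := by
    have : Continuous fun ξ : Du (c0 I X) => dl (Φ ξ) := dl_continuous.comp Φ.continuous_toFun
    refine (isOpen_lt this continuous_const).mem_nhds ?_
    change dl (Φ 1) < ε
    rw [map_one, dl_one]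
    exact hε
  obtain ⟨C, hC, δ, hδ, hs⟩ := du_nhds h2
  have h3 := c0_unif hC (equicont_of_compact hS hδ)
  refine Set.Finite.subset h3 ?_
  intro i hi
  by_contra hcon
  apply hi
  apply h1
  intro χ hχ
  rw [hy i χ]
  apply hs
  intro x hx
  change dl (χ (co i x.1)) < δ
  by_contra hlt
  exact hcon ⟨x, hx, fun hmem => hlt (hmem χ hχ)⟩

theorem c0_reflexive [LocallyCompactSpace X] (hR : Reflexive X) : Reflexive (c0 I X) :=
  refl_of _ hR (c0_lift hR) c0_AP (c0_mem hR)

end c0

end Pool.Agent.V1184.RF
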