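import Mathlib
import Pool.Agent.V1184.RF.Inst

set_option autoImplicit false
set_option linter.unusedSectionVars false
set_option linter.style.haveILetI false

namespace Pool.Agent.V1184.RF

open Topology Filter Set

variable {I X : Type} [CommGroup X] [UniformSpace X] [IsUniformGroup X]

theorem linf_of_compact {x : Fam I X} {K : Set X} (hK : IsCompact K) (h : ∀ i, co i x ∈ K) :
    x ∈ linf I X := by
  rw [tb_iff]
  refine TotallyBounded.subset ?_ hK.totallyBounded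
  rintro _ ⟨i, rfl⟩
  exact h i

open Pointwise in
theorem tb_cover {x : Fam I X} (hx : x ∈ linf I X) {U : Set X} (hU : U ∈ 𝓝 (1 : X)) :
    ∃ s : Set X, s.Finite ∧ ∀ i, ∃ y ∈ s, y⁻¹ * co i x ∈ U := by
  obtain ⟨s, hs, h⟩ := (totallyBounded_iff_subset_finite_iUnion_nhds_one.1 (tb_iff.1 hx)) U hU
  refine ⟨s, hs, fun i => ?_⟩
  have := h ⟨i, rfl⟩
  simp only [Set.mem_iUnion] at this
  obtain ⟨y, hy, u, hu, e⟩ := this
  refine ⟨y, hy, ?_⟩
  have e' : y * u = co i x := e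
  rw [← e', inv_mul_cancel_left]
  exact hu

theorem ann_compact [LocallyCompactSpace X] (hR : Reflexive X) (L : Subgroup (Du X))
    (hL : IsOpen (L : Set (Du X))) : IsCompact {a : X | ∀ χ ∈ L, χ a = 1} := by
  have h1 := isCompact_polar (G := Du X) (fun _ => (L : Set (Du X)))
    (fun _ => hL.mem_nhds L.one_mem)
  have h2 : IsCompact ((ev X) ⁻¹' {ψ : Du (Du X) | ∀ n : ℕ, ∀ χ ∈ (L : Set (Du X)),
      dl (ψ χ) ≤ 1 / ((n : ℝ) + 1)}) := by
    have := hR.isClosedEmbedding.isCompact_preimage h1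
    exact this
  convert h2 using 1
  ext a
  constructor
  · intro ha n χ hχ
    rw [ev_apply, ha χ hχ, dl_one]
    positivity
  · intro ha χ hχ
    apply eq_one_of_forall
    intro ε hε
    obtain ⟨n, hn⟩ := exists_nat_one_div_lt hε
    exact lt_of_le_of_lt (ha n χ hχ) hn

theorem linf_lift [LocallyCompactSpace X] (hR : Reflexive X) (L : Subgroup (Du X))
    (hL : IsOpen (L : Set (Du X))) (x : ℕ → linf I X)
    (hx : ∀ C : Set (Du X), C ⊆ L → IsCompact C → ∀ ε > 0, ∃ n0, ∀ n ≥ n0, ∀ i, ∀ χ ∈ C,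
        dl (χ (co i (x n).1)) < ε) :
    ∃ z : ℕ → linf I X, (∀ n i, ∀ χ ∈ L, χ (co i (z n).1) = χ (co i (x n).1)) ∧
        Tendsto z atTop (𝓝 1) := by
  obtain ⟨z, hz1, hz2⟩ := lift_family hR L hL (P := ℕ × I) (comap Prod.fst atTop)
    (fun p => co p.2 (x p.1).1) (by
    intro C hC hCc ε hε
    obtain ⟨n0, hn0⟩ := hx C hC hCc ε hε
    have h1 : ∀ᶠ n : ℕ in atTop, n0 ≤ n := eventually_ge_atTop n0
    filter_upwards [tendsto_comap.eventually h1] with p hp
    exact hn0 p.1 hp p.2)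
  have hzm : ∀ n, (UniformFun.ofFun (fun i => z (n, i)) : Fam I X) ∈ linf I X := by
    intro n
    have h2 : (UniformFun.ofFun (fun i => (co i (x n).1)⁻¹ * z (n, i)) : Fam I X) ∈ linf I X := by
      apply linf_of_compact (ann_compact hR L hL)
      intro i χ hχ
      change χ ((co i (x n).1)⁻¹ * z (n, i)) = 1
      rw [map_mul, map_inv, hz1 (n, i) χ hχ, inv_mul_cancel]
    have h3 := (linf I X).mul_mem (x n).2 h2
    have h4 : (x n).1 * (UniformFun.ofFun (fun i => (co i (x n).1)⁻¹ * z (n, i)) : Fam I X) =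
        UniformFun.ofFun (fun i => z (n, i)) := by
      apply co_ext
      intro i
      change co i (x n).1 * ((co i (x n).1)⁻¹ * z (n, i)) = z (n, i)
      rw [mul_inv_cancel_left]
    rwa [h4] at h3
  refine ⟨fun n => ⟨_, hzm n⟩, fun n i χ hχ => hz1 (n, i) χ hχ, ?_⟩
  rw [sub_tendsto]
  intro U hU
  have h6 := hz2 hU
  obtain ⟨A, hA, hAU⟩ := h6
  filter_upwards [hA] with n hn i
  exact hAU (show (n, i) ∈ Prod.fst ⁻¹' A from hn)

theorem linf_AP (C : Set (linf I X)) (hC : IsCompact C) (W : Set (linf I X))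
    (hW : W ∈ 𝓝 (1 : linf I X)) :
    ∃ (J : Finset I) (β : I → (X →ₜ* linf I X)),
      ∀ x ∈ C, x * (∏ f ∈ J, β f (co f x.1))⁻¹ ∈ W := by
  classical
  obtain ⟨U, hU, hUW⟩ := sub_nhds _ hW
  obtain ⟨V0, hV0, hV0U⟩ := exists_nhds_one_split4 hU
  let V : Set X := V0 ∩ (fun a => a⁻¹) ⁻¹' V0
  have hV : V ∈ 𝓝 (1 : X) := by
    refine Filter.inter_mem hV0 ?_
    have : Tendsto (fun a : X => a⁻¹) (𝓝 1) (𝓝 1) := by
      have := (continuous_inv (G := X)).tendsto 1
      rwa [inv_one] at this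
    exact this hV0
  obtain ⟨t, ht⟩ := cover (linf I X) hC hV
  have h1 : ∀ c : linf I X, ∃ s : Set X, s.Finite ∧ ∀ i, ∃ y ∈ s, y⁻¹ * co i c.1 ∈ V :=
    fun c => tb_cover c.2 hV
  choose s hs hs' using h1
  choose lab hlab hlab' using hs'
  let l : I → (t → X) := fun i c => lab c.1 i
  have hfin : (Set.range l).Finite := by
    refine Set.Finite.subset (Set.Finite.pi' (t := fun c : t => s c.1) (fun c => hs c.1)) ?_
    rintro _ ⟨i, rfl⟩ c
    exact hlab c.1 i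
  let r : I → I := fun i => Set.rangeSplitting l ⟨l i, i, rfl⟩
  have hr : ∀ i, l (r i) = l i := fun i => Set.apply_rangeSplitting l ⟨l i, i, rfl⟩
  have hrfin : (Set.range r).Finite := by
    haveI : Finite (Set.range l) := hfin
    refine Set.Finite.subset (Set.finite_range (Set.rangeSplitting l)) ?_
    rintro _ ⟨i, rfl⟩
    exact ⟨_, rfl⟩
  have hB : ∀ (f : I) (k : X),
      (UniformFun.ofFun (fun i => if i ∈ {i | r i = f} then k else 1) : Fam I X) ∈ linf I X := by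
    intro f k
    have : IsCompact ({k, 1} : Set X) := (Set.toFinite _).isCompact
    apply linf_of_compact this
    intro i
    change (if i ∈ {i | r i = f} then k else 1) ∈ ({k, 1} : Set X)
    split_ifs
    · exact Or.inl rfl
    · exact Or.inr rfl
  refine ⟨hrfin.toFinset, fun f => blk (linf I X) {i | r i = f} (hB f), fun x hx => ?_⟩
  apply hUW
  intro i
  change co i x.1 * (co i (∏ f ∈ hrfin.toFinset, _ : linf I X).1)⁻¹ ∈ U
  rw [co_prod]
  have h2 : ∀ f : I, co i ((blk (linf I X) {i | r i = f} (hB f)) (co f x.1)).1 =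
      if r i = f then co f x.1 else 1 := fun f => rfl
  rw [Finset.prod_congr rfl fun f _ => h2 f, Finset.prod_ite_eq,
    if_pos (hrfin.mem_toFinset.2 ⟨i, rfl⟩)]
  obtain ⟨c, hc, hcx⟩ := ht x hx
  have e1 := hcx i
  have e2 := hcx (r i)
  have e3 := hlab' c i
  have e4 := hlab' c (r i)
  have e5 : lab c (r i) = lab c i := congrFun (hr i) ⟨c, hc⟩
  rw [e5] at e4
  have e6 := hV0U e1.1 e3.1 e2.2 e4.2
  convert e6 using 1
  change _ = (co i c.1)⁻¹ * co i x.1 * ((lab c i)⁻¹ * co i c.1) *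
    ((co (r i) c.1)⁻¹ * co (r i) x.1)⁻¹ * ((lab c i)⁻¹ * co (r i) c.1)⁻¹
  have key : ∀ a b p q u v : X, p * v⁻¹ =
      (a⁻¹ * p) * (u⁻¹ * a) * (b⁻¹ * v)⁻¹ * (u⁻¹ * b)⁻¹ := by
    intro a b p q u v
    simp only [mul_inv_rev, inv_inv]
    rw [mul_comm b⁻¹ u]
    have : a⁻¹ * p * (u⁻¹ * a) * (v⁻¹ * b) * (u * b⁻¹) =
      p * v⁻¹ * (a⁻¹ * a) * (u⁻¹ * u) * (b * b⁻¹) := by
      simp only [mul_assoc, mul_left_comm, mul_comm]
    rw [this]
    simp
  exact key _ _ _ 1 _ _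

theorem linf_compact [LocallyCompactSpace X] {C : Set (linf I X)} (hC : IsCompact C) :
    ∃ D : Set X, IsCompact D ∧ ∀ x ∈ C, ∀ i, co i x.1 ∈ D := by
  obtain ⟨K, hKc, hK⟩ := exists_compact_mem_nhds (1 : X)
  obtain ⟨t, ht⟩ := cover (linf I X) hC hK
  have h1 : ∀ c : linf I X, ∃ s : Set X, s.Finite ∧ ∀ i, ∃ y ∈ s, y⁻¹ * co i c.1 ∈ K :=
    fun c => tb_cover c.2 hK
  choose s hs hs' using h1
  refine ⟨⋃ c ∈ t, ⋃ y ∈ s c, (fun p : X × X => y * (p.1 * p.2)) '' (K ×ˢ K), ?_, ?_⟩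
  · refine t.isCompact_biUnion fun c _ => (hs c).isCompact_biUnion fun y _ => ?_
    exact (hKc.prod hKc).image (by fun_prop)
  · intro x hx i
    obtain ⟨c, hc, h2⟩ := ht x hx
    obtain ⟨y, hy, h3⟩ := hs' c i
    simp only [Set.mem_iUnion]
    refine ⟨c, hc, y, hy, (y⁻¹ * co i c.1, (co i c.1)⁻¹ * co i x.1), ⟨h3, h2 i⟩, ?_⟩
    change y * (y⁻¹ * co i c.1 * ((co i c.1)⁻¹ * co i x.1)) = co i x.1
    group

theorem linf_mem [LocallyCompactSpace X] (hR : Reflexive X) (Φ : Du (Du (linf I X))) (y : I → X)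
    (hy : ∀ i, ∀ χ : Du X, χ (y i) = Φ (χ.comp (pr (linf I X) i))) :
    (UniformFun.ofFun y : Fam I X) ∈ linf I X := by
  have h0 : ∀ n : ℕ, ∃ W ∈ 𝓝 (1 : Du X), ∀ χ ∈ W, ∀ i, dl (χ (y i)) ≤ 1 / ((n : ℝ) + 1) := by
    intro n
    have h2 : {ξ : Du (linf I X) | dl (Φ ξ) < 1 / ((n : ℝ) + 1)} ∈ 𝓝 (1 : Du (linf I X)) := by
      have : Continuous fun ξ : Du (linf I X) => dl (Φ ξ) := dl_continuous.comp Φ.continuous_toFun
      refine (isOpen_lt this continuous_const).mem_nhds ?_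
      change dl (Φ 1) < _
      rw [map_one, dl_one]
      positivity
    obtain ⟨C, hC, δ, hδ, hs⟩ := du_nhds h2
    obtain ⟨D, hD, hCD⟩ := linf_compact hC
    refine ⟨_, mem_du_of hD hδ, fun χ hχ i => ?_⟩
    rw [hy i χ]
    apply le_of_lt
    apply hs
    intro x hx
    exact hχ _ (hCD x hx i)
  choose W hW hW' using h0
  have h1 := isCompact_polar (G := Du X) W hW
  have h2 : IsCompact ((ev X) ⁻¹' {ψ : Du (Du X) | ∀ n : ℕ, ∀ χ ∈ W n,
      dl (ψ χ) ≤ 1 / ((n : ℝ) + 1)}) := hR.isClosedEmbedding.isCompact_preimage h1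
  exact linf_of_compact h2 fun i n χ hχ => hW' n χ hχ i

theorem linf_reflexive [LocallyCompactSpace X] (hR : Reflexive X) : Reflexive (linf I X) :=
  refl_of _ hR (linf_lift hR) linf_AP (linf_mem hR)

theorem linf_isOpen [LocallyCompactSpace X] : IsOpen (linf I X : Set (Fam I X)) := by
  apply (linf I X).isOpen_of_mem_nhds (g := 1)
  obtain ⟨K, hKc, hK⟩ := exists_compact_mem_nhds (1 : X)
  exact Filter.mem_of_superset (fam_mem hK) fun x hx => linf_of_compact hKc hx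

end Pool.Agent.V1184.RF
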