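import Mathlib
import Pool.Agent.V1184.RF.Main

set_option autoImplicit false
set_option linter.unusedSectionVars false
set_option linter.style.haveILetI false

namespace Pool.Agent.V1184.RF

open Topology Filter Set

/-- characters of abstract abelian groups separate points -/
theorem sep_disc {D : Type} [CommGroup D] (d : D) (hd : d ≠ 1) : ∃ χ : D →* Circle, χ d ≠ 1 := by
  obtain ⟨c, hc⟩ := CharacterModule.exists_character_apply_ne_zero_of_ne_zero
    (A := Additive D) (a := Additive.ofMul d) hd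
  let φ : AddCircle (1 : ℚ) →+ AddCircle (1 : ℝ) :=
    QuotientAddGroup.map (AddSubgroup.zmultiples (1 : ℚ)) (AddSubgroup.zmultiples (1 : ℝ))
      (Rat.castHom ℝ).toAddMonoidHom (by
        rintro x ⟨n, rfl⟩
        exact ⟨n, by simp⟩)
  have hφ : Function.Injective φ := by
    rw [injective_iff_map_eq_zero]
    intro x hx
    induction x using QuotientAddGroup.induction_on with
    | H x =>
      have h1 : ((x : ℝ) : AddCircle (1 : ℝ)) = 0 := hx
      rw [AddCircle.coe_eq_zero_iff] at h1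
      obtain ⟨n, hn⟩ := h1
      change ((x : ℚ) : AddCircle (1 : ℚ)) = 0
      rw [AddCircle.coe_eq_zero_iff]
      refine ⟨n, ?_⟩
      have h2 : ((n • (1 : ℚ) : ℚ) : ℝ) = (x : ℝ) := by
        rw [← hn]; simp
      exact_mod_cast h2
  refine ⟨{ toFun := fun a => AddCircle.toCircle (φ (c (Additive.ofMul a)))
            map_one' := ?_
            map_mul' := fun a b => ?_ }, ?_⟩
  · rw [ofMul_one, map_zero, map_zero, AddCircle.toCircle_zero]
  · rw [ofMul_mul, map_add, map_add, AddCircle.toCircle_add]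
  · intro h
    apply hc
    apply hφ
    rw [map_zero]
    apply AddCircle.injective_toCircle (one_ne_zero)
    rw [AddCircle.toCircle_zero]
    exact h

variable {G : Type} [CommGroup G] [TopologicalSpace G] [IsTopologicalGroup G]

theorem cont_of_trivial (A : Subgroup G) (hA : IsOpen (A : Set G)) (f : G →* Circle)
    (g : A → Circle) (hg : Continuous g) (h : ∀ a : A, f a = g a) : Continuous f := by
  apply continuous_of_continuousAt_one
  have h1 : ContinuousAt (f ∘ ((↑) : A → G)) 1 := by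
    have : (f ∘ ((↑) : A → G)) = g := funext h
    rw [this]
    exact hg.continuousAt
  exact (hA.isOpenEmbedding_subtypeVal.continuousAt_iff (x := (1 : A))).1 h1

theorem sep_open (A : Subgroup G) (hA : IsOpen (A : Set G)) (g : G) (hg : g ∉ A) :
    ∃ χ : Du G, (∀ a ∈ A, χ a = 1) ∧ 1 ≤ dl (χ g) := by
  have h0 : (QuotientGroup.mk' A g) ≠ 1 := by
    intro h
    exact hg ((QuotientGroup.eq_one_iff g).1 h)
  obtain ⟨ξ, hξ⟩ := sep_disc _ h0
  have h1 : ∃ n : ℕ, 1 ≤ dl ((ξ (QuotientGroup.mk' A g)) ^ n) := by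
    by_contra hcon
    push Not at hcon
    exact hξ (no_small hcon)
  obtain ⟨n, hn⟩ := h1
  have h2 : ∀ a ∈ A, (ξ.comp (QuotientGroup.mk' A)) a = 1 := by
    intro a ha
    have : QuotientGroup.mk' A a = 1 := (QuotientGroup.eq_one_iff a).2 ha
    rw [MonoidHom.comp_apply, this, map_one]
  let χ : Du G :=
    { toMonoidHom := (ξ.comp (QuotientGroup.mk' A)) ^ n
      continuous_toFun := by
        apply cont_of_trivial A hA _ (fun _ => 1) continuous_const
        intro a
        rw [MonoidHom.pow_apply, h2 a.1 a.2, one_pow] }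
  refine ⟨χ, fun a ha => ?_, hn⟩
  change ((ξ.comp (QuotientGroup.mk' A)) a) ^ n = 1
  rw [h2 a ha, one_pow]

theorem ext_open (A : Subgroup G) (hA : IsOpen (A : Set G)) (ψ : Du A) :
    ∃ χ : Du G, ∀ a : A, χ a = ψ a := by
  obtain ⟨F, hF⟩ := ext_hom A circle_div ψ.toMonoidHom
  exact ⟨⟨F, cont_of_trivial A hA F (fun a => ψ a) ψ.continuous_toFun hF⟩, hF⟩

/-- the inclusion of a subgroup -/
def inc (A : Subgroup G) : A →ₜ* G := ⟨A.subtype, continuous_subtype_val⟩

theorem open_sub (A : Subgroup G) (hA : IsOpen (A : Set G)) (hR : Reflexive A) : Reflexive G := by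
  have hinc : ∀ {p : G → Prop}, (∀ᶠ a : A in 𝓝 (1 : A), p (a : G)) → ∀ᶠ x in 𝓝 (1 : G), p x := by
    intro p hp
    have h1 := hA.isOpenEmbedding_subtypeVal.map_nhds_eq (1 : A)
    change {x | p x} ∈ 𝓝 ((1 : A) : G)
    rw [← h1]
    exact hp
  apply reflexive_of
  · apply ev_continuous
    intro Q hQ ε hε
    apply hinc
    have h1 := equicont_of_ev hR.continuous _
      (hQ.image (ContinuousMonoidHom.continuous_comp_left (C := Circle) (inc A))) ε hε
    filter_upwards [h1] with a ha χ hχ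
    exact ha _ ⟨χ, hχ, rfl⟩
  · rw [injective_iff_map_eq_one]
    intro g hg
    have h1 : g ∈ A := by
      by_contra hgA
      obtain ⟨χ, _, h2⟩ := sep_open A hA g hgA
      have h3 : χ g = 1 := DFunLike.congr_fun hg χ
      rw [h3, dl_one] at h2
      linarith
    have h2 : ev A ⟨g, h1⟩ = 1 := by
      ext ψ
      obtain ⟨χ, hχ⟩ := ext_open A hA ψ
      rw [ev_apply, ← hχ ⟨g, h1⟩]
      have h3 : χ g = 1 := DFunLike.congr_fun hg χ
      rw [h3]
      rfl
    rw [← map_one (ev A)] at h2
    exact congrArg Subtype.val (hR.injective h2)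
  · intro Φ
    haveI : DiscreteTopology (G ⧸ A) := QuotientGroup.discreteTopology hA
    let q : G →ₜ* (G ⧸ A) := ⟨QuotientGroup.mk' A, QuotientGroup.continuous_mk⟩
    obtain ⟨d, hd⟩ := disc_surj (Φ.comp (ContinuousMonoidHom.compLeft Circle q))
    obtain ⟨g, hg⟩ := QuotientGroup.mk'_surjective A d
    let Ψ : Du (Du G) := Φ * (ev G g)⁻¹
    have hΨ : ∀ χ : Du G, (∀ a ∈ A, χ a = 1) → Ψ χ = 1 := by
      intro χ hχ
      let ξ0 : G ⧸ A →* Circle := QuotientGroup.lift A χ.toMonoidHom hχ
      let ξ : Du (G ⧸ A) := ⟨ξ0, continuous_of_discreteTopology⟩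
      have e1 : ξ.comp q = χ := by
        ext x
        rfl
      have e2 := hd ξ
      have e3 : ξ d = χ g := by
        rw [← hg]
        rfl
      change Φ χ * (χ g)⁻¹ = 1
      rw [← e3, ← e2, mul_inv_eq_one, ← e1]
      rfl
    have hΨ2 : ∀ χ χ' : Du G, (∀ a ∈ A, χ a = χ' a) → Ψ χ = Ψ χ' := by
      intro χ χ' h
      have := hΨ (χ * χ'⁻¹) (fun a ha => by
        change χ a * (χ' a)⁻¹ = 1
        rw [h a ha, mul_inv_cancel])
      rw [map_mul, map_inv, mul_inv_eq_one] at this
      exact this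
    choose e he using ext_open A hA
    let Θ : Du A →* Circle :=
      { toFun := fun ψ => Ψ (e ψ)
        map_one' := hΨ _ (fun a ha => he 1 ⟨a, ha⟩)
        map_mul' := fun ψ ψ' => by
          rw [← map_mul]
          apply hΨ2
          intro a ha
          change e (ψ * ψ') (⟨a, ha⟩ : A) = e ψ (⟨a, ha⟩ : A) * e ψ' (⟨a, ha⟩ : A)
          rw [he, he, he]
          rfl }
    have hΘ : Continuous Θ := by
      apply continuous_of_continuousAt_one
      change Tendsto Θ (𝓝 1) (𝓝 (Θ 1))
      rw [map_one, tendsto_iff_ultrafilter]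
      intro 𝒰 h𝒰
      have hlim : ∀ x : G, ∃ θ : Circle, Tendsto (fun ψ : Du A => e ψ x) 𝒰 (𝓝 θ) := by
        intro x
        exact ⟨_, (𝒰.map (fun ψ : Du A => e ψ x)).le_nhds_lim⟩
      choose θ hθ using hlim
      have hθA : ∀ a ∈ A, θ a = 1 := by
        intro a ha
        have h1 : Tendsto (fun ψ : Du A => ψ ⟨a, ha⟩) 𝒰 (𝓝 1) := by
          have : Tendsto (fun ψ : Du A => ψ ⟨a, ha⟩) (𝓝 1) (𝓝 ((1 : Du A) ⟨a, ha⟩)) :=
            (continuous_eval_const (⟨a, ha⟩ : A)).tendsto 1
          exact this.mono_left h𝒰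
        have h2 := hθ a
        have h3 : (fun ψ : Du A => e ψ a) = fun ψ : Du A => ψ ⟨a, ha⟩ := by
          funext ψ
          exact he ψ ⟨a, ha⟩
        rw [h3] at h2
        exact tendsto_nhds_unique h2 h1
      let θh : G →* Circle :=
        { toFun := θ
          map_one' := hθA 1 A.one_mem
          map_mul' := fun x y => by
            have h4 := (hθ x).mul (hθ y)
            have h5 := hθ (x * y)
            have h6 : (fun ψ : Du A => e ψ (x * y)) = fun ψ : Du A => e ψ x * e ψ y := by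
              funext ψ
              exact map_mul _ _ _
            rw [h6] at h5
            exact tendsto_nhds_unique h5 h4 }
      let θc : Du G := ⟨θh, cont_of_trivial A hA θh (fun _ => 1) continuous_const
        (fun a => hθA a.1 a.2)⟩
      have hΨθ : Ψ θc = 1 := hΨ θc hθA
      have hconv : Tendsto (fun ψ : Du A => e ψ * θc⁻¹) 𝒰 (𝓝 (1 : Du G)) := by
        rw [du_tendsto]
        intro C hC ε hε
        obtain ⟨t, _, ht⟩ := hC.elim_nhds_subcover (fun c => {x : G | c⁻¹ * x ∈ A}) (by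
          intro c _
          refine (hA.preimage (continuous_const.mul continuous_id)).mem_nhds ?_
          change c⁻¹ * c ∈ A
          rw [inv_mul_cancel]
          exact A.one_mem)
        have hAc : IsClosed (A : Set G) := Subgroup.isClosed_of_isOpen A hA
        have hev : ∀ c ∈ t, ∀ᶠ ψ in (𝒰 : Filter (Du A)), dl ((e ψ * θc⁻¹) c) < ε / 2 ∧
            ∀ a ∈ ((↑) : A → G) ⁻¹' ((fun x : G => c⁻¹ * x) '' C), dl (ψ a) < ε / 2 := by
          intro c _
          have h7 : Tendsto (fun ψ : Du A => (e ψ * θc⁻¹) c) 𝒰 (𝓝 1) := by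
            have h8 := (hθ c).mul (tendsto_const_nhds (x := (θ c)⁻¹))
            rw [mul_inv_cancel] at h8
            exact h8
          have h9 := tendsto_iff.1 h7 (ε / 2) (by linarith)
          have h10 : IsCompact (((↑) : A → G) ⁻¹' ((fun x : G => c⁻¹ * x) '' C)) :=
            hAc.isClosedEmbedding_subtypeVal.isCompact_preimage
              (hC.image (continuous_const.mul continuous_id))
          have h11 := h𝒰 (mem_du_of h10 (by linarith : 0 < ε / 2))
          exact h9.and h11
        have hev' := (Filter.eventually_all_finset t).2 hev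
        filter_upwards [hev'] with ψ hψ x hx
        have h12 := ht hx
        simp only [Set.mem_iUnion] at h12
        obtain ⟨c, hc, hcA⟩ := h12
        obtain ⟨h13, h14⟩ := hψ c hc
        have h15 := h14 ⟨c⁻¹ * x, hcA⟩ ⟨x, hx, rfl⟩
        have h16 : (e ψ * θc⁻¹) x = (e ψ * θc⁻¹) c * ψ ⟨c⁻¹ * x, hcA⟩ := by
          have h17 : x = c * (c⁻¹ * x) := by group
          conv_lhs => rw [h17]
          rw [map_mul]
          congr 1
          change e ψ (c⁻¹ * x) * (θ (c⁻¹ * x))⁻¹ = _
          rw [hθA _ hcA, inv_one, mul_one]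
          exact he ψ ⟨c⁻¹ * x, hcA⟩
        rw [h16]
        refine lt_of_le_of_lt (dl_mul _ _) ?_
        linarith
      have h18 : Tendsto (fun ψ : Du A => Ψ (e ψ * θc⁻¹)) 𝒰 (𝓝 (Ψ 1)) :=
        (Ψ.continuous_toFun.tendsto 1).comp hconv
      rw [map_one] at h18
      refine h18.congr ?_
      intro ψ
      rw [map_mul, map_inv, hΨθ, inv_one, mul_one]
      rfl
    obtain ⟨a, ha⟩ := hR.surjective (⟨Θ, hΘ⟩ : Du (Du A))
    refine ⟨g * a, ?_⟩
    ext χ
    have h19 : Ψ χ = χ a := by
      have h20 := DFunLike.congr_fun ha (χ.comp (inc A))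
      have h21 : (χ.comp (inc A)) a = Ψ (e (χ.comp (inc A))) := h20
      have h22 : Ψ χ = Ψ (e (χ.comp (inc A))) := by
        apply hΨ2
        intro b hb
        exact (he (χ.comp (inc A)) ⟨b, hb⟩).symm
      rw [h22, ← h21]
      rfl
    have h23 : Φ χ * (χ g)⁻¹ = χ a := h19
    rw [mul_inv_eq_iff_eq_mul] at h23
    rw [h23, ev_apply, map_mul, mul_comm]
  · intro W hW
    have hWA : ((↑) : A → G) ⁻¹' W ∈ 𝓝 (1 : A) := by
      have : Tendsto ((↑) : A → G) (𝓝 1) (𝓝 ((1 : A) : G)) := continuous_subtype_val.tendsto 1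
      exact this hW
    obtain ⟨S, hS, ε, hε, h⟩ := refl_nhds hR hWA
    have hW1 : ∀ n : ℕ, {x : G | ∃ ha : x ∈ A, ∀ ψ ∈ S, dl (ψ ⟨x, ha⟩) < 1 / ((n : ℝ) + 1)} ∈
        𝓝 (1 : G) := by
      intro n
      apply hinc (p := fun x => ∃ ha : x ∈ A, ∀ ψ ∈ S, dl (ψ ⟨x, ha⟩) < 1 / ((n : ℝ) + 1))
      have := equicont_of_ev hR.continuous S hS (1 / ((n : ℝ) + 1)) (by positivity)
      filter_upwards [this] with a ha
      exact ⟨a.2, ha⟩
    refine ⟨_, isCompact_polar _ hW1, min ε 1, lt_min hε one_pos, ?_⟩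
    intro x hx
    have hxA : x ∈ A := by
      by_contra hxA
      obtain ⟨χ, h1, h2⟩ := sep_open A hA x hxA
      have h3 := hx χ (by
        rintro n y ⟨hy, _⟩
        rw [h1 y hy, dl_one]
        positivity)
      have := lt_of_lt_of_le h3 (min_le_right _ _)
      linarith
    have h4 : (⟨x, hxA⟩ : A) ∈ ((↑) : A → G) ⁻¹' W := by
      apply h
      intro ψ hψ
      obtain ⟨χ, hχ⟩ := ext_open A hA ψ
      rw [← hχ ⟨x, hxA⟩]
      refine lt_of_lt_of_le (hx χ ?_) (min_le_left _ _)
      rintro n y ⟨hy, hy2⟩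
      have := hχ ⟨y, hy⟩
      change χ y = _ at this
      rw [this]
      exact (hy2 ψ hψ).le
    exact h4

end Pool.Agent.V1184.RF
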