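import Mathlib
import Pool.Agent.V1184.RF.Opn

set_option autoImplicit false
set_option linter.unusedSectionVars false
set_option linter.style.haveILetI false

namespace Pool.Agent.V1184.RF

open Topology Filter Set

/-! ### characters of the real line -/

/-- the character `x ↦ exp(i t x)` of the additive group `ℝ` -/
noncomputable def chr (t : ℝ) : Du (Multiplicative ℝ) where
  toFun x := Circle.exp (t * x.toAdd)
  map_one' := by simp
  map_mul' x y := by
    rw [toAdd_mul, mul_add, Circle.exp_add]
  continuous_toFun := Circle.exp.continuous.comp (continuous_const.mul continuous_toAdd)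

theorem chr_apply (t : ℝ) (x : Multiplicative ℝ) : chr t x = Circle.exp (t * x.toAdd) := rfl

theorem real_char (f : Du (Multiplicative ℝ)) : ∃ t, f = chr t := by
  let f' : C(ℝ, Circle) := ⟨fun x => f (Multiplicative.ofAdd x),
    f.continuous_toFun.comp continuous_ofAdd⟩
  have f'0 : f' 0 = 1 := by
    change f (Multiplicative.ofAdd 0) = 1
    rw [ofAdd_zero, map_one]
  obtain ⟨F, ⟨hF0, hF⟩, huniq⟩ :=
    Circle.isCoveringMap_exp.existsUnique_continuousMap_lifts f' 0 0 (by
      rw [f'0]; exact Circle.exp_zero)
  have hF' : ∀ x, Circle.exp (F x) = f' x := fun x => congrFun hF x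
  have hadd : ∀ x y, F (x + y) = F x + F y := by
    intro x y
    let G : C(ℝ, ℝ) := ⟨fun x => F (x + y) - F y, by fun_prop⟩
    have hG : G = F := by
      apply huniq
      refine ⟨?_, ?_⟩
      · change F (0 + y) - F y = 0
        rw [zero_add, sub_self]
      · funext x
        change Circle.exp (F (x + y) - F y) = f' x
        rw [Circle.exp_sub, hF', hF']
        change f (Multiplicative.ofAdd (x + y)) / f (Multiplicative.ofAdd y) =
          f (Multiplicative.ofAdd x)
        rw [ofAdd_add, map_mul, mul_div_assoc, div_self', mul_one]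
    have := DFunLike.congr_fun hG x
    change F (x + y) - F y = F x at this
    linarith
  let F' : ℝ →+ ℝ := AddMonoidHom.mk' F hadd
  refine ⟨F 1, ?_⟩
  ext x
  have h1 : F x.toAdd = F 1 * x.toAdd := by
    have := map_real_smul F' F.continuous x.toAdd 1
    have h2 : F' (x.toAdd • (1 : ℝ)) = F x.toAdd := by
      rw [smul_eq_mul, mul_one]; rfl
    rw [h2] at this
    rw [this, smul_eq_mul, mul_comm]
    rfl
  have h3 : f x = Circle.exp (F x.toAdd) := by
    rw [hF']
    rfl
  rw [h3, h1, chr_apply]

theorem chr_continuous : Continuous chr := by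
  apply ContinuousMonoidHom.continuous_of_continuous_uncurry
  change Continuous (fun p : ℝ × Multiplicative ℝ => Circle.exp (p.1 * p.2.toAdd))
  exact Circle.exp.continuous.comp (continuous_fst.mul (continuous_toAdd.comp continuous_snd))

noncomputable def chrHom : Multiplicative ℝ →ₜ* Du (Multiplicative ℝ) where
  toFun t := chr t.toAdd
  map_one' := by
    ext x
    rw [chr_apply, toAdd_one, zero_mul]
    simp
  map_mul' s t := by
    ext x
    change _ = ((chr s.toAdd x * chr t.toAdd x : Circle) : ℂ)
    rw [chr_apply, chr_apply, chr_apply, toAdd_mul, add_mul, Circle.exp_add]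
  continuous_toFun := chr_continuous.comp continuous_toAdd

theorem dl_exp_pi : dl (Circle.exp Real.pi) = 2 := by
  rw [dl_eq, Circle.coe_exp, Complex.exp_pi_mul_I]
  norm_num

theorem real_refl : Reflexive (Multiplicative ℝ) := by
  haveI : LocallyCompactSpace (Multiplicative ℝ) := inferInstanceAs (LocallyCompactSpace ℝ)
  apply reflexive_of
  · exact ev_continuous fun Q hQ ε hε => equicont_of_compact hQ hε
  · rw [injective_iff_map_eq_one]
    intro x hx
    by_contra hne
    have hx0 : x.toAdd ≠ 0 := fun h => hne (by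
      rw [← ofAdd_toAdd x, h, ofAdd_zero])
    have h1 : Circle.exp (Real.pi / x.toAdd * x.toAdd) = 1 :=
      DFunLike.congr_fun hx (chr (Real.pi / x.toAdd))
    rw [div_mul_cancel₀ _ hx0] at h1
    have h2 := dl_exp_pi
    rw [h1, dl_one] at h2
    norm_num at h2
  · intro Φ
    obtain ⟨s, hs⟩ := real_char (Φ.comp chrHom)
    refine ⟨Multiplicative.ofAdd s, ?_⟩
    ext χ
    obtain ⟨t, rfl⟩ := real_char χ
    have h1 : Φ (chr t) = (Φ.comp chrHom) (Multiplicative.ofAdd t) := rfl
    rw [h1, hs, ev_apply, chr_apply, chr_apply, toAdd_ofAdd, toAdd_ofAdd, mul_comm]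
  · intro W hW
    have h1 : (Multiplicative.ofAdd : ℝ → Multiplicative ℝ) ⁻¹' W ∈ 𝓝 (0 : ℝ) :=
      continuous_ofAdd.continuousAt (x := (0 : ℝ)) hW
    obtain ⟨δ, hδ, hδW⟩ := Metric.mem_nhds_iff.1 h1
    refine ⟨chr '' Icc (-(Real.pi / δ)) (Real.pi / δ), isCompact_Icc.image chr_continuous, 1,
      one_pos, ?_⟩
    intro x hx
    have h2 : |x.toAdd| < δ := by
      by_contra hcon
      push Not at hcon
      have hx0 : x.toAdd ≠ 0 := by
        intro h
        rw [h, abs_zero] at hcon
        linarith
      have h3 := hx (chr (Real.pi / x.toAdd)) ⟨_, by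
        rw [Set.mem_Icc, ← abs_le, abs_div, abs_of_pos Real.pi_pos]
        exact div_le_div_of_nonneg_left Real.pi_pos.le hδ hcon, rfl⟩
      rw [chr_apply, div_mul_cancel₀ _ hx0, dl_exp_pi] at h3
      norm_num at h3
    have h4 : x.toAdd ∈ Metric.ball (0 : ℝ) δ := by
      rw [Metric.mem_ball, Real.dist_eq, sub_zero]
      exact h2
    exact hδW h4

/-! ### products and isomorphisms -/

section
variable {G H : Type} [CommGroup G] [TopologicalSpace G] [IsTopologicalGroup G]
  [CommGroup H] [TopologicalSpace H] [IsTopologicalGroup H]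

theorem prod_refl [LocallyCompactSpace G] [LocallyCompactSpace H] (hG : Reflexive G)
    (hH : Reflexive H) : Reflexive (G × H) := by
  apply reflexive_of
  · exact ev_continuous fun Q hQ ε hε => equicont_of_compact hQ hε
  · rw [injective_iff_map_eq_one]
    rintro ⟨g, h⟩ hx
    have h1 : ev G g = 1 := by
      ext ψ
      have := DFunLike.congr_fun hx (ψ.comp (ContinuousMonoidHom.fst G H))
      exact congrArg _ this
    have h2 : ev H h = 1 := by
      ext ψ
      have := DFunLike.congr_fun hx (ψ.comp (ContinuousMonoidHom.snd G H))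
      exact congrArg _ this
    rw [← map_one (ev G)] at h1
    rw [← map_one (ev H)] at h2
    exact Prod.ext (hG.injective h1) (hH.injective h2)
  · intro Φ
    obtain ⟨g, hg⟩ := hG.surjective
      (Φ.comp (ContinuousMonoidHom.compLeft Circle (ContinuousMonoidHom.fst G H)))
    obtain ⟨h, hh⟩ := hH.surjective
      (Φ.comp (ContinuousMonoidHom.compLeft Circle (ContinuousMonoidHom.snd G H)))
    refine ⟨(g, h), ?_⟩
    ext χ
    have e1 : χ = (χ.comp (ContinuousMonoidHom.inl G H)).comp (ContinuousMonoidHom.fst G H) *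
        (χ.comp (ContinuousMonoidHom.inr G H)).comp (ContinuousMonoidHom.snd G H) := by
      ext ⟨a, b⟩
      change _ = ((χ (a, 1) * χ (1, b) : Circle) : ℂ)
      rw [← map_mul]
      simp
    have e2 : Φ ((χ.comp (ContinuousMonoidHom.inl G H)).comp (ContinuousMonoidHom.fst G H)) =
        χ (g, 1) := (DFunLike.congr_fun hg (χ.comp (ContinuousMonoidHom.inl G H))).symm
    have e3 : Φ ((χ.comp (ContinuousMonoidHom.inr G H)).comp (ContinuousMonoidHom.snd G H)) =
        χ (1, h) := (DFunLike.congr_fun hh (χ.comp (ContinuousMonoidHom.inr G H))).symm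
    have e4 : Φ χ = χ (g, 1) * χ (1, h) := by
      conv_lhs => rw [e1]
      rw [map_mul, e2, e3]
    rw [e4, ev_apply, ← map_mul]
    simp
  · intro W hW
    have hW' : W ∈ 𝓝 ((1 : G), (1 : H)) := hW
    rw [mem_nhds_prod_iff] at hW'
    obtain ⟨U, hU, V, hV, hUV⟩ := hW'
    obtain ⟨S, hS, ε, hε, h1⟩ := refl_nhds hG hU
    obtain ⟨T, hT, η, hη, h2⟩ := refl_nhds hH hV
    refine ⟨(fun ψ : Du G => ψ.comp (ContinuousMonoidHom.fst G H)) '' S ∪
      (fun ψ : Du H => ψ.comp (ContinuousMonoidHom.snd G H)) '' T,
      (hS.image (ContinuousMonoidHom.continuous_comp_left (C := Circle)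
        (ContinuousMonoidHom.fst G H))).union
      (hT.image (ContinuousMonoidHom.continuous_comp_left (C := Circle)
        (ContinuousMonoidHom.snd G H))), min ε η, lt_min hε hη, ?_⟩
    rintro ⟨g, h⟩ hx
    apply hUV
    refine ⟨h1 ?_, h2 ?_⟩
    · intro ψ hψ
      exact lt_of_lt_of_le (hx _ (Or.inl ⟨ψ, hψ, rfl⟩)) (min_le_left _ _)
    · intro ψ hψ
      exact lt_of_lt_of_le (hx _ (Or.inr ⟨ψ, hψ, rfl⟩)) (min_le_right _ _)

theorem iso_refl (f : G →ₜ* H) (g : H →ₜ* G) (_hgf : ∀ x, g (f x) = x) (hfg : ∀ y, f (g y) = y)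
    (hG : Reflexive G) : Reflexive H := by
  have ft : Tendsto f (𝓝 1) (𝓝 1) := by
    have := f.continuous_toFun.tendsto 1
    change Tendsto f (𝓝 1) (𝓝 (f 1)) at this
    rwa [map_one] at this
  have gt : Tendsto g (𝓝 1) (𝓝 1) := by
    have := g.continuous_toFun.tendsto 1
    change Tendsto g (𝓝 1) (𝓝 (g 1)) at this
    rwa [map_one] at this
  apply reflexive_of
  · apply ev_continuous
    intro Q hQ ε hε
    have h1 := equicont_of_ev hG.continuous _
      (hQ.image (ContinuousMonoidHom.continuous_comp_left (C := Circle) f)) ε hε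
    filter_upwards [gt.eventually h1] with y hy χ hχ
    have := hy _ ⟨χ, hχ, rfl⟩
    change dl (χ (f (g y))) < ε at this
    rwa [hfg] at this
  · rw [injective_iff_map_eq_one]
    intro y hy
    have h1 : ev G (g y) = 1 := by
      ext ψ
      have := DFunLike.congr_fun hy (ψ.comp g)
      exact congrArg _ this
    rw [← map_one (ev G)] at h1
    have h2 := hG.injective h1
    rw [← hfg y, h2, map_one]
  · intro Φ
    obtain ⟨x, hx⟩ := hG.surjective (Φ.comp (ContinuousMonoidHom.compLeft Circle g))
    refine ⟨f x, ?_⟩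
    ext χ
    have h1 : (χ.comp f) x = Φ ((χ.comp f).comp g) := DFunLike.congr_fun hx (χ.comp f)
    have h2 : (χ.comp f).comp g = χ := by
      ext y
      change ((χ (f (g y)) : Circle) : ℂ) = _
      rw [hfg]
    rw [h2] at h1
    rw [ev_apply, ← h1]
    rfl
  · intro W hW
    obtain ⟨S, hS, ε, hε, h⟩ := refl_nhds hG (ft hW)
    refine ⟨(fun ψ : Du G => ψ.comp g) '' S,
      hS.image (ContinuousMonoidHom.continuous_comp_left (C := Circle) g), ε, hε, ?_⟩
    intro y hy
    have h1 : g y ∈ f ⁻¹' W := h (fun ψ hψ => hy _ ⟨ψ, hψ, rfl⟩)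
    rw [mem_preimage, hfg] at h1
    exact h1

end

instance lc_mul_real : LocallyCompactSpace (Multiplicative ℝ) :=
  inferInstanceAs (LocallyCompactSpace ℝ)

theorem vec_refl (n : ℕ) : Reflexive (Fin n → Multiplicative ℝ) := by
  induction n with
  | zero => exact compact_refl
  | succ n ih =>
    refine iso_refl (G := Multiplicative ℝ × (Fin n → Multiplicative ℝ))
      (f := { toFun := fun p => Fin.cons p.1 p.2
              map_one' := ?_
              map_mul' := ?_
              continuous_toFun := ?_ })
      (g := { toFun := fun v => (v 0, fun i => v i.succ)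
              map_one' := rfl
              map_mul' := fun _ _ => rfl
              continuous_toFun := ?_ }) ?_ ?_ (prod_refl real_refl ih)
    · funext i
      refine Fin.cases ?_ (fun i => ?_) i
      · rfl
      · rfl
    · intro p q
      funext i
      refine Fin.cases ?_ (fun i => ?_) i
      · rfl
      · rfl
    · refine continuous_pi fun i => ?_
      refine Fin.cases ?_ (fun i => ?_) i
      · exact continuous_fst
      · exact (continuous_apply i).comp continuous_snd
    · exact (continuous_apply 0).prodMk (continuous_pi fun i => continuous_apply i.succ)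
    · rintro ⟨a, v⟩
      rfl
    · intro v
      funext i
      refine Fin.cases ?_ (fun i => ?_) i
      · rfl
      · rfl

/-- groups with an open subgroup topologically isomorphic to `ℝ^n × K`, `K` compact -/
theorem struct_refl {X : Type} [CommGroup X] [TopologicalSpace X] [IsTopologicalGroup X]
    (n : ℕ) (K : Type) [CommGroup K] [TopologicalSpace K] [IsTopologicalGroup K] [CompactSpace K]
    [T2Space K] (A : Subgroup X) (hA : IsOpen (A : Set X))
    (e : ((Fin n → Multiplicative ℝ) × K) ≃ₜ* A) : Reflexive X := by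
  apply open_sub A hA
  refine iso_refl (G := (Fin n → Multiplicative ℝ) × K)
    (f := ⟨e.toMulEquiv.toMonoidHom, e.continuous_toFun⟩)
    (g := ⟨e.symm.toMulEquiv.toMonoidHom, e.symm.continuous_toFun⟩) ?_ ?_
    (prod_refl (vec_refl n) compact_refl)
  · intro x
    exact e.symm_apply_apply x
  · intro y
    exact e.apply_symm_apply y

end Pool.Agent.V1184.RF
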